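import Pool.Agent.Helper32.QS.Assign

/-!
# Fibres of structured systems on regular linear fibres have positive density
-/

set_option autoImplicit false

namespace Pool.Agent.Helper32.QS

open Finset
open Pool.Agent.Helper21.LinSys

/-- Averaging over tuples in a finite group. -/
theorem group_average {G : Type*} [AddCommGroup G] [Fintype G] [DecidableEq G] {D : ℕ}
    (Good : Finset G)
    (h : ∀ g : Fin D → G, ∃ K : Finset (Fin D), K.Nonempty ∧ ∑ k ∈ K, g k ∈ Good) :
    Fintype.card G ≤ 2 ^ D * Good.card := by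
  classical
  have hG : 0 < Fintype.card G := Fintype.card_pos
  -- for fixed `K` the number of tuples with sum in `Good`
  have hK : ∀ K : Finset (Fin D), K.Nonempty →
      (univ.filter fun g : Fin D → G => ∑ k ∈ K, g k ∈ Good).card * Fintype.card G =
        Good.card * Fintype.card G ^ D := by
    intro K hKne
    obtain ⟨k₀, hk₀⟩ := hKne
    let N : G → ℕ := fun s => (univ.filter fun g : Fin D → G => ∑ k ∈ K, g k = s).card
    have hN : ∀ s, N s = N 0 := by
      intro s
      refine Finset.card_bij' (fun g _ => g - Pi.single k₀ s) (fun g _ => g + Pi.single k₀ s)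
        ?_ ?_ ?_ ?_
      · intro g hg
        rw [Finset.mem_filter] at hg ⊢
        refine ⟨Finset.mem_univ _, ?_⟩
        simp only [Pi.sub_apply, Finset.sum_sub_distrib]
        rw [hg.2, Finset.sum_pi_single' k₀ s K]
        simp [hk₀]
      · intro g hg
        rw [Finset.mem_filter] at hg ⊢
        refine ⟨Finset.mem_univ _, ?_⟩
        simp only [Pi.add_apply, Finset.sum_add_distrib]
        rw [hg.2, Finset.sum_pi_single' k₀ s K]
        simp [hk₀]
      · intro g _; simp
      · intro g _; simp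
    have h1 : (univ.filter fun g : Fin D → G => ∑ k ∈ K, g k ∈ Good).card = ∑ s ∈ Good, N s := by
      rw [Finset.card_eq_sum_card_fiberwise (f := fun g : Fin D → G => ∑ k ∈ K, g k)
        (t := Good)]
      · refine Finset.sum_congr rfl fun s hs => ?_
        simp only [N]
        congr 1
        ext g
        simp only [Finset.mem_filter, Finset.mem_univ, true_and]
        constructor
        · exact fun h => h.2
        · intro h; exact ⟨by rw [h]; exact hs, h⟩
      · intro g hg
        have := (Finset.mem_filter.mp (Finset.mem_coe.mp hg)).2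
        exact this
    have h2 : Fintype.card G ^ D = ∑ s : G, N s := by
      have h3 : Fintype.card G ^ D = (univ : Finset (Fin D → G)).card := by
        rw [Finset.card_univ, Fintype.card_fun, Fintype.card_fin]
      rw [h3, Finset.card_eq_sum_card_fiberwise (f := fun g : Fin D → G => ∑ k ∈ K, g k)
        (t := univ)]
      intro g _; exact Finset.mem_coe.mpr (Finset.mem_univ _)
    rw [h1, h2, Finset.sum_congr rfl fun s _ => hN s, Finset.sum_congr rfl fun s _ => hN s,
      Finset.sum_const, Finset.sum_const, Finset.card_univ]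
    simp only [smul_eq_mul]
    ring
  have hcover : Fintype.card G ^ D ≤ ∑ K ∈ univ.filter (fun K : Finset (Fin D) => K.Nonempty),
      (univ.filter fun g : Fin D → G => ∑ k ∈ K, g k ∈ Good).card := by
    have h3 : Fintype.card G ^ D = (univ : Finset (Fin D → G)).card := by
      rw [Finset.card_univ, Fintype.card_fun, Fintype.card_fin]
    rw [h3]
    refine le_trans (Finset.card_le_card ?_) Finset.card_biUnion_le
    intro g _
    obtain ⟨K, hKn, hKg⟩ := h g
    rw [Finset.mem_biUnion]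
    exact ⟨K, Finset.mem_filter.mpr ⟨Finset.mem_univ _, hKn⟩,
      Finset.mem_filter.mpr ⟨Finset.mem_univ _, hKg⟩⟩
  have h4 : Fintype.card G ^ D * Fintype.card G ≤
      2 ^ D * Good.card * Fintype.card G ^ D := by
    calc Fintype.card G ^ D * Fintype.card G ≤
        (∑ K ∈ univ.filter (fun K : Finset (Fin D) => K.Nonempty),
          (univ.filter fun g : Fin D → G => ∑ k ∈ K, g k ∈ Good).card) * Fintype.card G :=
          Nat.mul_le_mul_right _ hcover
      _ = ∑ K ∈ univ.filter (fun K : Finset (Fin D) => K.Nonempty),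
          Good.card * Fintype.card G ^ D := by
          rw [Finset.sum_mul]
          refine Finset.sum_congr rfl fun K hKm => ?_
          exact hK K (Finset.mem_filter.mp hKm).2
      _ ≤ 2 ^ D * (Good.card * Fintype.card G ^ D) := by
          rw [Finset.sum_const, smul_eq_mul]
          refine Nat.mul_le_mul_right _ ?_
          refine (Finset.card_filter_le _ _).trans ?_
          simp
      _ = _ := by ring
  have h5 : 0 < Fintype.card G ^ D := pow_pos hG D
  have h6 : Fintype.card G * Fintype.card G ^ D ≤ (2 ^ D * Good.card) * Fintype.card G ^ D := by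
    calc Fintype.card G * Fintype.card G ^ D = Fintype.card G ^ D * Fintype.card G := by ring
      _ ≤ _ := h4
  exact Nat.le_of_mul_le_mul_right h6 h5

variable {ι : Type*} [Fintype ι] [DecidableEq ι] {M : ℕ}

/-- The function `h` has no isolated fibre points on block cubes of dimension `D`. -/
def NoIso {β : Type*} (D : ℕ) (h : (ι → Bool) → β) : Prop :=
  ∀ (x : ι → Bool) (B : Fin D → Finset ι), (∀ k l, k ≠ l → Disjoint (B k) (B l)) →
    ∃ K : Finset (Fin D), K.Nonempty ∧ h (flip x (K.biUnion B)) = h x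

/-- Systems of functions of low degree have no isolated fibre points. -/
theorem noIso_of_LD {m d w : ℕ} (hm : m ≠ 0) {D : ℕ} (f : Fin w → (ι → Bool) → ZMod m)
    (hf : ∀ i, LD m d (f i)) (hD : ZB (w * (m * d)) d m.primeFactorsList.length ≤ D) :
    NoIso D (fun x i => f i x) := by
  intro x B hB
  obtain ⟨K, hK, hK2⟩ := exists_flip_eq hm f hf hD x B hB
  exact ⟨K, hK, funext hK2⟩

/-- Second stage: all forms of `Γ'` are regular on `T`. -/
theorem stage2 [NeZero M] {β : Type*} (Γ Γ' : AddSubgroup (ι → ZMod M)) (hΓ : Γ ≤ Γ')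
    (T : Finset ι) (x : ι → Bool) (r D : ℕ) (hreg : ∀ L ∈ Γ', L ∈ sup M T ∨ r ≤ off T L)
    (hbig : (Nat.card Γ' : ℝ) ^ D * kap M D ^ r < 1) (hrho : (Nat.card Γ' : ℝ) * rho M ^ r ≤ 1 / 2)
    (h : (ι → Bool) → β) (hiso : NoIso D h)
    (hstr : ∀ u ∈ fibz Γ T x x, ∀ v ∈ fibz Γ T x x, (∀ L ∈ Γ', ev L u = ev L v) → h u = h v)
    (Y : Finset (ι → Bool)) (hY : ∀ u ∈ fibz Γ T x x, h u = h x → u ∈ Y) :
    ((fibz Γ T x x).card : ℝ) ≤ 3 * 2 ^ D * Y.card := by
  classical
  have hfin : Finite (Γ' →+ ZMod M) :=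
    Finite.of_injective (fun f => (f : Γ' → ZMod M)) DFunLike.coe_injective
  -- the group of admissible values
  let G₁ : AddSubgroup (Γ' →+ ZMod M) :=
    { carrier := {g | (∀ L : Γ', (L : ι → ZMod M) ∈ Γ → g L = 0) ∧
        ∀ L : Γ', (L : ι → ZMod M) ∈ sup M T → g L = 0}
      zero_mem' := ⟨fun _ _ => rfl, fun _ _ => rfl⟩
      add_mem' := fun {a b} ha hb => ⟨fun L hL => by
          rw [AddMonoidHom.add_apply, ha.1 L hL, hb.1 L hL, add_zero], fun L hL => by
          rw [AddMonoidHom.add_apply, ha.2 L hL, hb.2 L hL, add_zero]⟩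
      neg_mem' := fun {a} ha => ⟨fun L hL => by
          rw [AddMonoidHom.neg_apply, ha.1 L hL, neg_zero], fun L hL => by
          rw [AddMonoidHom.neg_apply, ha.2 L hL, neg_zero]⟩ }
  have : Fintype G₁ := Fintype.ofFinite _
  -- the value of a point
  let Φ : (ι → Bool) → (Γ' →+ ZMod M) := fun u =>
    { toFun := fun L => ev (L : ι → ZMod M) u - ev (L : ι → ZMod M) x
      map_zero' := by simp [ev_zero]
      map_add' := fun L L' => by
        simp only [AddSubgroup.coe_add, ev_add]; ring }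
  have hΦ : ∀ u L, Φ u L = ev (L : ι → ZMod M) u - ev (L : ι → ZMod M) x := fun u L => rfl
  have hΦmem : ∀ u ∈ fibz Γ T x x, Φ u ∈ G₁ := by
    intro u hu
    rw [mem_fibz] at hu
    refine ⟨fun L hL => ?_, fun L hL => ?_⟩
    · rw [hΦ, hu.2 L hL, sub_self]
    · rw [hΦ, sub_eq_zero]
      refine ev_congr fun i hi => hu.1 i ?_
      by_contra hiT
      exact hi (hL i hiT)
  -- realisation of tuples of values
  have hreal : ∀ g : Fin D → G₁, ∃ C : Fin D → Finset ι, (∀ k, Disjoint (C k) T) ∧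
      (∀ k l, k ≠ l → Disjoint (C k) (C l)) ∧
      ∀ k, ∀ L : Γ', ev (L : ι → ZMod M) (flip x (C k)) = ev (L : ι → ZMod M) x + (g k).1 L :=
    fun g => exists_assign Γ' T x r D hreg (fun k => (g k).1) (fun k L hL => (g k).2.2 L hL) hbig
  have hmemU : ∀ (g : Fin D → G₁) (C : Fin D → Finset ι), (∀ k, Disjoint (C k) T) →
      (∀ k l, k ≠ l → Disjoint (C k) (C l)) →
      (∀ k, ∀ L : Γ', ev (L : ι → ZMod M) (flip x (C k)) = ev (L : ι → ZMod M) x + (g k).1 L) →
      ∀ K : Finset (Fin D), flip x (K.biUnion C) ∈ fibz Γ T x x ∧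
        Φ (flip x (K.biUnion C)) = ((∑ k ∈ K, g k : G₁) : Γ' →+ ZMod M) := by
    intro g C hC1 hC2 hC3 K
    have hval : ∀ L : Γ', ev (L : ι → ZMod M) (flip x (K.biUnion C)) =
        ev (L : ι → ZMod M) x + ∑ k ∈ K, (g k).1 L := by
      intro L
      rw [ev_flip_biUnion _ x C hC2]
      congr 1
      refine Finset.sum_congr rfl fun k _ => ?_
      rw [hC3 k L]; ring
    refine ⟨?_, ?_⟩
    · rw [mem_fibz]
      refine ⟨fun i hi => ?_, fun L hL => ?_⟩
      · refine flip_apply_of_notMem x ?_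
        rw [Finset.mem_biUnion]
        rintro ⟨k, -, hk⟩
        exact Finset.disjoint_left.mp (hC1 k) hk hi
      · have := hval ⟨L, hΓ hL⟩
        simp only at this
        rw [this, Finset.sum_eq_zero, add_zero]
        intro k _
        exact (g k).2.1 ⟨L, hΓ hL⟩ hL
    · ext L
      rw [hΦ, hval L, add_sub_cancel_left]
      rw [AddSubgroup.val_finsetSum, AddMonoidHom.finsetSum_apply]
  -- good values
  let Good : Finset G₁ := univ.filter fun g => ∃ u ∈ fibz Γ T x x, Φ u = g.1 ∧ h u = h x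
  have havg : Fintype.card G₁ ≤ 2 ^ D * Good.card := by
    refine group_average Good fun g => ?_
    obtain ⟨C, hC1, hC2, hC3⟩ := hreal g
    obtain ⟨K, hK1, hK2⟩ := hiso x C hC2
    obtain ⟨h1, h2⟩ := hmemU g C hC1 hC2 hC3 K
    exact ⟨K, hK1, Finset.mem_filter.mpr ⟨Finset.mem_univ _, _, h1, h2, hK2⟩⟩
  -- sizes of the fibres of Φ
  set N' : ℝ := (Nat.card (Γ' ⊓ sup M T : AddSubgroup (ι → ZMod M)) : ℝ) with hN'
  have hN'1 : 1 ≤ N' := by
    rw [hN']; exact_mod_cast (Nat.card_pos (α := (Γ' ⊓ sup M T : AddSubgroup (ι → ZMod M))))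
  have hΓ'pos : (0 : ℝ) < Nat.card Γ' := by exact_mod_cast (Nat.card_pos (α := Γ'))
  set P : ℝ := N' * 2 ^ Tᶜ.card with hP
  have hPpos : 0 < P := by positivity
  have hsize : ∀ u ∈ fibz Γ T x x,
      P / 2 ≤ ((fibz Γ' T x u).card : ℝ) * Nat.card Γ' ∧
        ((fibz Γ' T x u).card : ℝ) * Nat.card Γ' ≤ 3 / 2 * P := by
    intro u hu
    have h1 := card_fibz Γ' T x u r hreg (by
      intro L _ hLs
      rw [mem_fibz] at hu
      refine ev_congr fun i hi => (hu.1 i ?_).symm
      by_contra hiT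
      exact hi (hLs i hiT))
    have h2 : (Nat.card Γ' : ℝ) * (2 ^ Tᶜ.card * rho M ^ r) ≤ P / 2 := by
      have h3 : (0 : ℝ) ≤ 2 ^ Tᶜ.card := by positivity
      calc (Nat.card Γ' : ℝ) * (2 ^ Tᶜ.card * rho M ^ r) =
          ((Nat.card Γ' : ℝ) * rho M ^ r) * 2 ^ Tᶜ.card := by ring
        _ ≤ 1 / 2 * 2 ^ Tᶜ.card := mul_le_mul_of_nonneg_right hrho h3
        _ ≤ P / 2 := by rw [hP]; nlinarith
    rw [abs_le] at h1
    constructor <;> linarith [h1.1, h1.2]
  have hfib : ∀ u ∈ fibz Γ T x x, (fibz Γ T x x).filter (fun v => Φ v = Φ u) =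
      fibz Γ' T x u := by
    intro u hu
    ext v
    rw [Finset.mem_filter, mem_fibz, mem_fibz]
    rw [mem_fibz] at hu
    constructor
    · rintro ⟨⟨h1, h2⟩, h3⟩
      refine ⟨h1, fun L hL => ?_⟩
      have := DFunLike.congr_fun h3 ⟨L, hL⟩
      rw [hΦ, hΦ] at this
      simpa using this
    · rintro ⟨h1, h2⟩
      refine ⟨⟨h1, fun L hL => (h2 L (hΓ hL)).trans (hu.2 L hL)⟩, ?_⟩
      ext L
      rw [hΦ, hΦ, h2 L L.2]
  -- upper bound for the fibre
  have hup : ((fibz Γ T x x).card : ℝ) * Nat.card Γ' ≤ Fintype.card G₁ * (3 / 2 * P) := by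
    have h1 : (fibz Γ T x x).card = ∑ g : G₁,
        ((fibz Γ T x x).filter (fun v => Φ v = g.1)).card := by
      have h2 := Finset.card_eq_sum_card_fiberwise (s := fibz Γ T x x)
        (t := (univ : Finset G₁)) (f := fun v => if hv : Φ v ∈ G₁ then (⟨Φ v, hv⟩ : G₁) else 0)
        (fun v _ => Finset.mem_coe.mpr (Finset.mem_univ _))
      rw [h2]
      refine Finset.sum_congr rfl fun g _ => ?_
      congr 1
      refine Finset.filter_congr fun v hv => ?_
      rw [dif_pos (hΦmem v hv)]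
      exact Subtype.ext_iff
    rw [h1]
    push_cast
    rw [Finset.sum_mul]
    refine (Finset.sum_le_sum (g := fun _ => 3 / 2 * P) fun g _ => ?_).trans ?_
    · rcases ((fibz Γ T x x).filter (fun v => Φ v = g.1)).eq_empty_or_nonempty with he | hne
      · rw [he]; simp; positivity
      · obtain ⟨u, hu⟩ := hne
        rw [Finset.mem_filter] at hu
        rw [← hu.2, hfib u hu.1]
        exact (hsize u hu.1).2
    · rw [Finset.sum_const, nsmul_eq_mul, Finset.card_univ]
  -- lower bound for the good points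
  have hlow : (Good.card : ℝ) * (P / 2) ≤ (Y.card : ℝ) * Nat.card Γ' := by
    have h1 : ∑ g ∈ Good, ((fibz Γ T x x).filter (fun v => Φ v = g.1)).card ≤ Y.card := by
      rw [← Finset.card_biUnion]
      · refine Finset.card_le_card ?_
        intro v hv
        rw [Finset.mem_biUnion] at hv
        obtain ⟨g, hg, hv⟩ := hv
        rw [Finset.mem_filter] at hv
        obtain ⟨u, hu, hug, hux⟩ := (Finset.mem_filter.mp hg).2
        refine hY v hv.1 ?_
        rw [← hux]
        refine hstr v hv.1 u hu fun L hL => ?_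
        have h2 : Φ v = Φ u := by rw [hv.2, hug]
        have := DFunLike.congr_fun h2 ⟨L, hL⟩
        rw [hΦ, hΦ] at this
        simpa using this
      · intro g _ g' _ hgg
        rw [Function.onFun, Finset.disjoint_left]
        intro v hv hv'
        rw [Finset.mem_filter] at hv hv'
        exact hgg (Subtype.ext (hv.2.symm.trans hv'.2))
    have h2 : (Good.card : ℝ) * (P / 2) ≤
        (∑ g ∈ Good, ((fibz Γ T x x).filter (fun v => Φ v = g.1)).card : ℕ) * Nat.card Γ' := by
      push_cast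
      rw [Finset.sum_mul, ← nsmul_eq_mul, ← Finset.sum_const]
      refine Finset.sum_le_sum fun g hg => ?_
      obtain ⟨u, hu, hug, -⟩ := (Finset.mem_filter.mp hg).2
      rw [← hug, hfib u hu]
      exact (hsize u hu).1
    refine h2.trans ?_
    refine mul_le_mul_of_nonneg_right ?_ hΓ'pos.le
    exact_mod_cast h1
  have havg' : (Fintype.card G₁ : ℝ) ≤ 2 ^ D * Good.card := by exact_mod_cast havg
  have hfinal : ((fibz Γ T x x).card : ℝ) * Nat.card Γ' ≤
      (3 * 2 ^ D * Y.card) * Nat.card Γ' := by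
    calc ((fibz Γ T x x).card : ℝ) * Nat.card Γ' ≤ Fintype.card G₁ * (3 / 2 * P) := hup
      _ ≤ (2 ^ D * Good.card) * (3 / 2 * P) :=
          mul_le_mul_of_nonneg_right havg' (by positivity)
      _ = 3 * 2 ^ D * (Good.card * (P / 2)) := by ring
      _ ≤ 3 * 2 ^ D * ((Y.card : ℝ) * Nat.card Γ') :=
          mul_le_mul_of_nonneg_left hlow (by positivity)
      _ = _ := by ring
  exact le_of_mul_le_mul_right hfinal hΓ'pos

/-- First stage: fixing the coordinates of `S₁ \ S` costs a constant factor only. -/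
theorem stage1 [NeZero M] {β : Type*} (Γ : AddSubgroup (ι → ZMod M)) (S S₁ : Finset ι)
    (hS : S ⊆ S₁) (y : ι → Bool) (R r D : ℕ) (hReg : Reg Γ S R) (hr1 : 1 ≤ r)
    (hR : (S₁ \ S).card + r ≤ R) (hbig : (Nat.card Γ : ℝ) ^ D * kap M D ^ r < 1)
    (hrho : (Nat.card Γ : ℝ) * rho M ^ r ≤ 1 / 2)
    (h : (ι → Bool) → β) (hiso : NoIso D h) (C : ℝ) (hC0 : 0 ≤ C)
    (hC : ∀ x ∈ fibz Γ S y y, h x = h y →
      ∀ Y : Finset (ι → Bool), (∀ u ∈ fibz Γ S₁ x x, h u = h x → u ∈ Y) →
        ((fibz Γ S₁ x x).card : ℝ) ≤ C * Y.card)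
    (Y : Finset (ι → Bool)) (hY : ∀ u ∈ fibz Γ S y y, h u = h y → u ∈ Y) :
    ((fibz Γ S y y).card : ℝ) ≤ 3 * 2 ^ D * C * Y.card := by
  classical
  set H := S₁ \ S with hH
  -- regularity on `S₁`
  have hreg₁ : ∀ L ∈ Γ, L ∈ sup M S₁ ∨ r ≤ off S₁ L := by
    intro L hL
    rcases hReg L hL with h1 | h1
    · exact Or.inl (sup_mono hS h1)
    · right
      have h2 : off S L ≤ off S₁ L + H.card := by
        unfold off
        rw [hH]
        refine le_trans (Finset.card_le_card (?_ : _ ⊆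
          (univ.filter fun i => i ∉ S₁ ∧ L i ≠ 0) ∪ (S₁ \ S))) (Finset.card_union_le _ _)
        intro i hi
        rw [Finset.mem_filter] at hi
        rw [Finset.mem_union, Finset.mem_filter, Finset.mem_sdiff]
        by_cases hi1 : i ∈ S₁
        · exact Or.inr ⟨hi1, hi.2.1⟩
        · exact Or.inl ⟨Finset.mem_univ _, hi1, hi.2.2⟩
      omega
  have hsupeq : ∀ L ∈ Γ, L ∈ sup M S₁ → L ∈ sup M S := by
    intro L hL hLs
    rcases hReg L hL with h1 | h1
    · exact h1
    · exfalso
      have h2 : off S L ≤ H.card := by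
        unfold off
        rw [hH]
        refine Finset.card_le_card fun i hi => ?_
        rw [Finset.mem_filter] at hi
        rw [Finset.mem_sdiff]
        refine ⟨?_, hi.2.1⟩
        by_contra hc
        exact hi.2.2 (hLs i hc)
      omega
  -- the admissible values on `H`
  let A : Finset (ι → Bool) := univ.filter fun z => (∀ i, i ∉ H → z i = y i) ∧
    ∃ x ∈ fibz Γ S y y, (∀ i ∈ S₁, x i = z i) ∧ h x = h y
  have hAne : A.Nonempty := ⟨y, Finset.mem_filter.mpr ⟨Finset.mem_univ _, fun _ _ => rfl, y,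
    mem_fibz.2 ⟨fun _ _ => rfl, fun _ _ => rfl⟩, fun _ _ => rfl, rfl⟩⟩
  have hAcard : 2 ^ H.card ≤ A.card * 2 ^ D := by
    refine card_ge D H.card H A rfl hAne ?_
    intro z hz J hJ hJD
    obtain ⟨hz1, x, hx, hxz, hxh⟩ := (Finset.mem_filter.mp hz).2
    obtain ⟨J₀, hJ₀, hJ₀c⟩ := Finset.exists_subset_card_eq hJD
    let e : Fin D → ι := fun k => ((J₀.equivFinOfCardEq hJ₀c).symm k : ι)
    have heJ : ∀ k, e k ∈ J := fun k => hJ₀ ((J₀.equivFinOfCardEq hJ₀c).symm k).2
    have heH : ∀ k, e k ∈ H := fun k => hJ (heJ k)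
    have heinj : ∀ k l, e k = e l → k = l := by
      intro k l hkl
      exact (J₀.equivFinOfCardEq hJ₀c).symm.injective (Subtype.ext hkl)
    have heS : ∀ k, e k ∉ S := fun k => (Finset.mem_sdiff.mp (heH k)).2
    have heS₁ : ∀ k, e k ∈ S₁ := fun k => (Finset.mem_sdiff.mp (heH k)).1
    -- targets
    let g : Fin D → Γ →+ ZMod M := fun k =>
      { toFun := fun L => -sg x (e k) ((L : ι → ZMod M) (e k))
        map_zero' := by simp [sg_zero]
        map_add' := fun L L' => by
          simp only [AddSubgroup.coe_add, Pi.add_apply, sg_add]; ring }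
    obtain ⟨C', hC1, hC2, hC3⟩ := exists_assign Γ S₁ x r D hreg₁ g (by
      intro k L hL
      have h1 : (L : ι → ZMod M) (e k) = 0 := hsupeq L L.2 hL (e k) (heS k)
      change -sg x (e k) ((L : ι → ZMod M) (e k)) = 0
      rw [h1, sg_zero, neg_zero]) hbig
    have heC : ∀ k l, e k ∉ C' l := by
      intro k l hk
      exact Finset.disjoint_left.mp (hC1 l) hk (heS₁ k)
    let B : Fin D → Finset ι := fun k => insert (e k) (C' k)
    have hBdis : ∀ k l, k ≠ l → Disjoint (B k) (B l) := by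
      intro k l hkl
      rw [Finset.disjoint_left]
      intro i hi hi'
      simp only [B, Finset.mem_insert] at hi hi'
      rcases hi with rfl | hi
      · rcases hi' with h1 | h1
        · exact hkl (heinj _ _ h1)
        · exact heC _ _ h1
      · rcases hi' with rfl | h1
        · exact heC _ _ hi
        · exact Finset.disjoint_left.mp (hC2 k l hkl) hi h1
    have hBval : ∀ k, ∀ L ∈ Γ, ev L (flip x (B k)) = ev L x := by
      intro k L hL
      have h1 := hC3 k ⟨L, hL⟩
      rw [ev_flip] at h1 ⊢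
      rw [Finset.sum_insert (heC k k)]
      have h2 : g k ⟨L, hL⟩ = -sg x (e k) (L (e k)) := rfl
      rw [h2] at h1
      simp only at h1
      have h3 := add_left_cancel h1
      rw [h3]; ring
    obtain ⟨K, hK1, hK2⟩ := hiso x B hBdis
    set x' := flip x (K.biUnion B) with hx'
    rw [mem_fibz] at hx
    have hBS : ∀ i ∈ S, i ∉ K.biUnion B := by
      intro i hi hiB
      rw [Finset.mem_biUnion] at hiB
      obtain ⟨k, -, hk⟩ := hiB
      simp only [B, Finset.mem_insert] at hk
      rcases hk with rfl | hk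
      · exact heS k hi
      · exact Finset.disjoint_left.mp (hC1 k) hk (hS hi)
    have hx'mem : x' ∈ fibz Γ S y y := by
      rw [mem_fibz]
      refine ⟨fun i hi => ?_, fun L hL => ?_⟩
      · rw [hx', flip_apply_of_notMem x (hBS i hi), hx.1 i hi]
      · rw [hx', ev_flip_biUnion L x B hBdis, Finset.sum_eq_zero, add_zero, hx.2 L hL]
        intro k _
        rw [hBval k L hL, sub_self]
    let z' : ι → Bool := fun i => if i ∈ H then x' i else y i
    have hz'S₁ : ∀ i ∈ S₁, x' i = z' i := by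
      intro i hi
      by_cases hiH : i ∈ H
      · simp [z', hiH]
      · have hiS : i ∈ S := by
          by_contra hc
          exact hiH (Finset.mem_sdiff.mpr ⟨hi, hc⟩)
        simp only [z', if_neg hiH]
        rw [hx', flip_apply_of_notMem x (hBS i hiS), hx.1 i hiS]
    refine ⟨z', Finset.mem_filter.mpr ⟨Finset.mem_univ _, ?_, x', hx'mem, hz'S₁, ?_⟩, ?_, ?_⟩
    · intro i hi; simp [z', hi]
    · rw [hK2, hxh]
    · obtain ⟨k, hk⟩ := hK1
      intro heq
      have h1 : z' (e k) = z (e k) := by rw [heq]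
      rw [← hxz (e k) (heS₁ k)] at h1
      simp only [z', if_pos (heH k)] at h1
      rw [hx', flip_apply_of_mem x (Finset.mem_biUnion.mpr ⟨k, hk, by simp [B]⟩)] at h1
      cases hxe : x (e k) <;> simp [hxe] at h1
    · intro i hi
      by_cases hiH : i ∈ H
      · simp only [z', if_pos hiH]
        have hiS₁ : i ∈ S₁ := (Finset.mem_sdiff.mp hiH).1
        rw [hx', flip_apply_of_notMem x, hxz i hiS₁]
        rw [Finset.mem_biUnion]
        rintro ⟨k, -, hk⟩
        simp only [B, Finset.mem_insert] at hk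
        rcases hk with rfl | hk
        · exact hi (heJ k)
        · exact Finset.disjoint_left.mp (hC1 k) hk hiS₁
      · simp only [z', if_neg hiH]
        exact (hz1 i hiH).symm
  -- sizes
  set N₀ : ℝ := (Nat.card (Γ ⊓ sup M S : AddSubgroup (ι → ZMod M)) : ℝ) with hN₀
  have hN₀1 : 1 ≤ N₀ := by
    rw [hN₀]; exact_mod_cast (Nat.card_pos (α := (Γ ⊓ sup M S : AddSubgroup (ι → ZMod M))))
  have hinfeq : (Γ ⊓ sup M S₁ : AddSubgroup (ι → ZMod M)) = Γ ⊓ sup M S := by
    refine le_antisymm (fun L hL => ⟨hL.1, hsupeq L hL.1 hL.2⟩) (inf_le_inf_left _ (sup_mono hS))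
  have hΓpos : (0 : ℝ) < Nat.card Γ := by exact_mod_cast (Nat.card_pos (α := Γ))
  have hFz : ∀ x ∈ fibz Γ S y y, N₀ * 2 ^ S₁ᶜ.card / 2 ≤
      ((fibz Γ S₁ x x).card : ℝ) * Nat.card Γ := by
    intro x _
    have h1 := card_fibz Γ S₁ x x r hreg₁ (fun _ _ _ => rfl)
    rw [hinfeq, ← hN₀] at h1
    have h2 := (abs_le.1 h1).1
    have h3 : (Nat.card Γ : ℝ) * (2 ^ S₁ᶜ.card * rho M ^ r) ≤ N₀ * 2 ^ S₁ᶜ.card / 2 := by
      have h4 : (0 : ℝ) ≤ 2 ^ S₁ᶜ.card := by positivity
      calc (Nat.card Γ : ℝ) * (2 ^ S₁ᶜ.card * rho M ^ r) =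
          ((Nat.card Γ : ℝ) * rho M ^ r) * 2 ^ S₁ᶜ.card := by ring
        _ ≤ (1 / 2) * 2 ^ S₁ᶜ.card := mul_le_mul_of_nonneg_right hrho h4
        _ ≤ _ := by nlinarith
    linarith
  have hup : ((fibz Γ S y y).card : ℝ) * Nat.card Γ ≤ 3 / 2 * (N₀ * 2 ^ Sᶜ.card) := by
    have h1 := card_fibz Γ S y y R hReg (fun _ _ _ => rfl)
    rw [← hN₀] at h1
    have h2 := (abs_le.1 h1).2
    have h3 : (Nat.card Γ : ℝ) * (2 ^ Sᶜ.card * rho M ^ R) ≤ N₀ * 2 ^ Sᶜ.card / 2 := by
      have h4 : (0 : ℝ) ≤ 2 ^ Sᶜ.card := by positivity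
      have h5 : rho M ^ R ≤ rho M ^ r :=
        pow_le_pow_of_le_one (rho_pos M).le (rho_le_one M) (by omega)
      calc (Nat.card Γ : ℝ) * (2 ^ Sᶜ.card * rho M ^ R) =
          ((Nat.card Γ : ℝ) * rho M ^ R) * 2 ^ Sᶜ.card := by ring
        _ ≤ ((Nat.card Γ : ℝ) * rho M ^ r) * 2 ^ Sᶜ.card := by gcongr
        _ ≤ (1 / 2) * 2 ^ Sᶜ.card := mul_le_mul_of_nonneg_right hrho h4
        _ ≤ _ := by nlinarith
    linarith
  -- witnesses
  have hwit : ∀ z ∈ A, ∃ x ∈ fibz Γ S y y, (∀ i ∈ S₁, x i = z i) ∧ h x = h y := by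
    intro z hz
    exact (Finset.mem_filter.mp hz).2.2
  have hsum : (A.card : ℝ) * (N₀ * 2 ^ S₁ᶜ.card / 2) ≤ C * Y.card * Nat.card Γ := by
    have h1 : ∀ z ∈ A, (N₀ * 2 ^ S₁ᶜ.card / 2) ≤
        C * (Y.filter fun u => ∀ i ∈ S₁, u i = z i).card * Nat.card Γ := by
      intro z hz
      obtain ⟨x, hx, hxz, hxh⟩ := hwit z hz
      refine (hFz x hx).trans ?_
      refine mul_le_mul_of_nonneg_right ?_ hΓpos.le
      refine hC x hx hxh _ fun u hu hux => ?_
      rw [mem_fibz] at hu hx
      refine Finset.mem_filter.mpr ⟨hY u ?_ (hux.trans hxh), fun i hi => ?_⟩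
      · rw [mem_fibz]
        exact ⟨fun i hi => (hu.1 i (hS hi)).trans (hx.1 i hi),
          fun L hL => (hu.2 L hL).trans (hx.2 L hL)⟩
      · exact (hu.1 i hi).trans (hxz i hi)
    have h2 : ∑ z ∈ A, (Y.filter fun u => ∀ i ∈ S₁, u i = z i).card ≤ Y.card := by
      rw [← Finset.card_biUnion]
      · refine Finset.card_le_card ?_
        intro u hu
        rw [Finset.mem_biUnion] at hu
        obtain ⟨z, -, hu⟩ := hu
        exact (Finset.mem_filter.mp hu).1
      · intro z hz z' hz' hzz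
        rw [Function.onFun, Finset.disjoint_left]
        intro u hu hu'
        rw [Finset.mem_filter] at hu hu'
        apply hzz
        funext i
        by_cases hi : i ∈ H
        · have hi1 := (Finset.mem_sdiff.mp hi).1
          rw [← hu.2 i hi1, ← hu'.2 i hi1]
        · rw [(Finset.mem_filter.mp hz).2.1 i hi, (Finset.mem_filter.mp hz').2.1 i hi]
    calc (A.card : ℝ) * (N₀ * 2 ^ S₁ᶜ.card / 2) = ∑ z ∈ A, (N₀ * 2 ^ S₁ᶜ.card / 2) := by
          rw [Finset.sum_const, nsmul_eq_mul]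
      _ ≤ ∑ z ∈ A, C * (Y.filter fun u => ∀ i ∈ S₁, u i = z i).card * Nat.card Γ :=
          Finset.sum_le_sum h1
      _ = C * ((∑ z ∈ A, (Y.filter fun u => ∀ i ∈ S₁, u i = z i).card : ℕ) : ℝ) *
            Nat.card Γ := by
          push_cast
          rw [Finset.mul_sum, Finset.sum_mul]
      _ ≤ C * Y.card * Nat.card Γ := by
          refine mul_le_mul_of_nonneg_right ?_ hΓpos.le
          refine mul_le_mul_of_nonneg_left ?_ hC0
          exact_mod_cast h2
  have hcompl : S₁ᶜ.card + H.card = Sᶜ.card := by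
    have h1 : S₁ᶜ.card + S₁.card = Fintype.card ι := Finset.card_compl_add_card S₁
    have h2 : Sᶜ.card + S.card = Fintype.card ι := Finset.card_compl_add_card S
    have h3 : H.card = S₁.card - S.card := by rw [hH, Finset.card_sdiff_of_subset hS]
    have h4 := Finset.card_le_card hS
    omega
  have hA' : (2 : ℝ) ^ H.card ≤ A.card * 2 ^ D := by exact_mod_cast hAcard
  have hfin : ((fibz Γ S y y).card : ℝ) * Nat.card Γ ≤ (3 * 2 ^ D * C * Y.card) * Nat.card Γ := by
    calc ((fibz Γ S y y).card : ℝ) * Nat.card Γ ≤ 3 / 2 * (N₀ * 2 ^ Sᶜ.card) := hup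
      _ = 3 * (2 ^ H.card * (N₀ * 2 ^ S₁ᶜ.card / 2)) := by
          rw [← hcompl, pow_add]; ring
      _ ≤ 3 * ((A.card * 2 ^ D) * (N₀ * 2 ^ S₁ᶜ.card / 2)) := by
          have : (0 : ℝ) ≤ N₀ * 2 ^ S₁ᶜ.card / 2 := by positivity
          have h1 := mul_le_mul_of_nonneg_right hA' this
          linarith
      _ = 3 * 2 ^ D * (A.card * (N₀ * 2 ^ S₁ᶜ.card / 2)) := by ring
      _ ≤ 3 * 2 ^ D * (C * Y.card * Nat.card Γ) :=
          mul_le_mul_of_nonneg_left hsum (by positivity)
      _ = _ := by ring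
  exact le_of_mul_le_mul_right hfin hΓpos

/-- Density of the fibres of structured systems without isolated fibre points on regular linear
fibres. -/
theorem density [NeZero M] {β : Type*} (Γ : AddSubgroup (ι → ZMod M)) (T T₁ : Finset ι)
    (hT : T ⊆ T₁) (y : ι → Bool) (R r t₁ D q : ℕ) (hReg : Reg Γ T R) (hr1 : 1 ≤ r)
    (hR : (T₁ \ T).card + (r * t₁ + r) ≤ R) (hq : q < 2 ^ t₁)
    (hbig : ((q : ℝ) * Nat.card Γ) ^ D * kap M D ^ r < 1)
    (hrho : (q : ℝ) * Nat.card Γ * rho M ^ r ≤ 1 / 2)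
    (h : (ι → Bool) → β) (hiso : NoIso D h) (hD : 1 ≤ D)
    (hstr : ∀ x ∈ fibz Γ T y y, ∃ Γ' : AddSubgroup (ι → ZMod M), Γ ≤ Γ' ∧
      Nat.card Γ' ≤ q * Nat.card Γ ∧ ∀ u ∈ fibz Γ T₁ x x, ∀ v ∈ fibz Γ T₁ x x,
        (∀ L ∈ Γ', ev L u = ev L v) → h u = h v)
    (Y : Finset (ι → Bool)) (hY : ∀ u ∈ fibz Γ T y y, h u = h y → u ∈ Y) :
    ((fibz Γ T y y).card : ℝ) ≤ 27 * 8 ^ D * Y.card := by
  classical
  have hkap0 : 0 ≤ kap M D ^ r := pow_nonneg (kap_nonneg M D hD) _
  have hrho0 : 0 ≤ rho M ^ r := pow_nonneg (rho_pos M).le _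
  have hΓ1 : (1 : ℝ) ≤ Nat.card Γ := by exact_mod_cast (Nat.card_pos (α := Γ))
  -- `q` is positive
  have hq1 : (1 : ℝ) ≤ q := by
    obtain ⟨Γ', h1, h2, -⟩ := hstr y (mem_fibz.2 ⟨fun _ _ => rfl, fun _ _ => rfl⟩)
    have h3 : 0 < Nat.card Γ' := Nat.card_pos
    have h4 : 0 < q := by
      rcases Nat.eq_zero_or_pos q with h0 | h0
      · rw [h0] at h2; omega
      · exact h0
    exact_mod_cast h4
  have hcardle : (Nat.card Γ : ℝ) ≤ q * Nat.card Γ := by nlinarith
  have hbigΓ : (Nat.card Γ : ℝ) ^ D * kap M D ^ r < 1 := by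
    refine lt_of_le_of_lt ?_ hbig
    refine mul_le_mul_of_nonneg_right ?_ hkap0
    exact pow_le_pow_left₀ (by linarith) hcardle D
  have hrhoΓ : (Nat.card Γ : ℝ) * rho M ^ r ≤ 1 / 2 :=
    (mul_le_mul_of_nonneg_right hcardle hrho0).trans hrho
  have hmain := stage1 Γ T T₁ hT y R r D hReg hr1 (by omega) hbigΓ hrhoΓ h hiso
    (9 * 4 ^ D) (by positivity) (by
      intro x hx hxy Z hZ
      obtain ⟨Γ', hΓΓ', hcard', hstr'⟩ := hstr x hx
      -- regularity of `Γ` on `T₁`
      have hReg₁ : Reg Γ T₁ (r * t₁ + r) := by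
        intro L hL
        rcases hReg L hL with h1 | h1
        · exact Or.inl (sup_mono hT h1)
        · right
          have h2 : off T L ≤ off T₁ L + (T₁ \ T).card := by
            unfold off
            refine le_trans (Finset.card_le_card (?_ : _ ⊆
              (univ.filter fun i => i ∉ T₁ ∧ L i ≠ 0) ∪ (T₁ \ T))) (Finset.card_union_le _ _)
            intro i hi
            rw [Finset.mem_filter] at hi
            rw [Finset.mem_union, Finset.mem_filter, Finset.mem_sdiff]
            by_cases hi1 : i ∈ T₁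
            · exact Or.inr ⟨hi1, hi.2.1⟩
            · exact Or.inl ⟨Finset.mem_univ _, hi1, hi.2.2⟩
          omega
      obtain ⟨t, htt, T₂, hTT, hTcard, hpow, hor⟩ := regularise Γ' T₁ r t₁
      have hTcard' : (T₂ \ T₁).card ≤ r * t₁ := hTcard.trans (Nat.mul_le_mul_left _ htt)
      have hsupeq : ∀ L ∈ Γ, L ∈ sup M T₂ → L ∈ sup M T₁ := by
        intro L hL hLs
        rcases hReg₁ L hL with h1 | h1
        · exact h1
        · exfalso
          have h2 : off T₁ L ≤ (T₂ \ T₁).card := by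
            unfold off
            refine Finset.card_le_card fun i hi => ?_
            rw [Finset.mem_filter] at hi
            rw [Finset.mem_sdiff]
            refine ⟨?_, hi.2.1⟩
            by_contra hc
            exact hi.2.2 (hLs i hc)
          omega
      have hreg' : Reg Γ' T₂ r := by
        rcases hor with h1 | h1
        · exact h1
        · exfalso
          -- index inequality
          set N := sup M T₂ with hN
          have h2 : Nat.card (Γ' ⊓ N : AddSubgroup (ι → ZMod M)) * Nat.card Γ ≤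
              Nat.card Γ' * Nat.card (Γ ⊓ N : AddSubgroup (ι → ZMod M)) := by
            have e1 : Nat.card (Γ ⊓ (Γ' ⊓ N) : AddSubgroup (ι → ZMod M)) *
                (Γ ⊓ (Γ' ⊓ N)).relIndex (Γ' ⊓ N) =
                Nat.card (Γ' ⊓ N : AddSubgroup (ι → ZMod M)) := by
              rw [← AddSubgroup.relIndex_bot_left, ← AddSubgroup.relIndex_bot_left]
              exact AddSubgroup.relIndex_mul_relIndex _ _ _ bot_le inf_le_right
            have e2 : Nat.card Γ * Γ.relIndex Γ' = Nat.card Γ' := by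
              rw [← AddSubgroup.relIndex_bot_left, ← AddSubgroup.relIndex_bot_left]
              exact AddSubgroup.relIndex_mul_relIndex _ _ _ bot_le hΓΓ'
            have e3 : (Γ ⊓ (Γ' ⊓ N)).relIndex (Γ' ⊓ N) ≤ Γ.relIndex Γ' := by
              rw [AddSubgroup.inf_relIndex_right]
              refine AddSubgroup.relIndex_le_of_le_right inf_le_left ?_
              intro h0
              rw [h0, mul_zero] at e2
              have := Nat.card_pos (α := Γ')
              omega
            have e4 : (Γ ⊓ (Γ' ⊓ N) : AddSubgroup (ι → ZMod M)) = Γ ⊓ N := by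
              rw [← inf_assoc, inf_eq_left.mpr hΓΓ']
            rw [← e1, ← e2, e4]
            rw [e4] at e3
            calc Nat.card (Γ ⊓ N : AddSubgroup (ι → ZMod M)) * (Γ ⊓ N).relIndex (Γ' ⊓ N) *
                  Nat.card Γ ≤ Nat.card (Γ ⊓ N : AddSubgroup (ι → ZMod M)) * Γ.relIndex Γ' *
                  Nat.card Γ := Nat.mul_le_mul_right _ (Nat.mul_le_mul_left _ e3)
              _ = _ := by ring
          have h3 : Nat.card (Γ' ⊓ N : AddSubgroup (ι → ZMod M)) ≤
              q * Nat.card (Γ ⊓ N : AddSubgroup (ι → ZMod M)) := by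
            have h4 : Nat.card (Γ' ⊓ N : AddSubgroup (ι → ZMod M)) * Nat.card Γ ≤
                (q * Nat.card (Γ ⊓ N : AddSubgroup (ι → ZMod M))) * Nat.card Γ := by
              refine h2.trans ?_
              calc Nat.card Γ' * Nat.card (Γ ⊓ N : AddSubgroup (ι → ZMod M)) ≤
                  (q * Nat.card Γ) * Nat.card (Γ ⊓ N : AddSubgroup (ι → ZMod M)) :=
                    Nat.mul_le_mul_right _ hcard'
                _ = _ := by ring
            exact Nat.le_of_mul_le_mul_right h4 Nat.card_pos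
          have h5 : (Γ ⊓ N : AddSubgroup (ι → ZMod M)) ≤ Γ' ⊓ sup M T₁ := fun L hL =>
            ⟨hΓΓ' hL.1, hsupeq L hL.1 hL.2⟩
          have h6 : Nat.card (Γ ⊓ N : AddSubgroup (ι → ZMod M)) ≤
              Nat.card (Γ' ⊓ sup M T₁ : AddSubgroup (ι → ZMod M)) :=
            Nat.card_le_card_of_injective (AddSubgroup.inclusion h5)
              (AddSubgroup.inclusion_injective _)
          have h7 : 2 ^ t * Nat.card (Γ' ⊓ sup M T₁ : AddSubgroup (ι → ZMod M)) ≤
              q * Nat.card (Γ' ⊓ sup M T₁ : AddSubgroup (ι → ZMod M)) :=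
            hpow.trans (h3.trans (Nat.mul_le_mul_left _ h6))
          have h8 := Nat.le_of_mul_le_mul_right h7 Nat.card_pos
          rw [h1] at h8
          omega
      have hcard'' : (Nat.card Γ' : ℝ) ≤ q * Nat.card Γ := by exact_mod_cast hcard'
      have hbig' : (Nat.card Γ' : ℝ) ^ D * kap M D ^ r < 1 := by
        refine lt_of_le_of_lt ?_ hbig
        refine mul_le_mul_of_nonneg_right ?_ hkap0
        exact pow_le_pow_left₀ (Nat.cast_nonneg _) hcard'' D
      have hrho' : (Nat.card Γ' : ℝ) * rho M ^ r ≤ 1 / 2 :=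
        (mul_le_mul_of_nonneg_right hcard'' hrho0).trans hrho
      have h9 := stage1 Γ T₁ T₂ hTT x (r * t₁ + r) r D hReg₁ hr1 (by omega) hbigΓ hrhoΓ h hiso
        (3 * 2 ^ D) (by positivity) (by
          intro x' hx' hx'h Z' hZ'
          have hsub : ∀ u ∈ fibz Γ T₂ x' x', u ∈ fibz Γ T₁ x x := by
            intro u hu
            rw [mem_fibz] at hu hx' ⊢
            exact ⟨fun i hi => (hu.1 i (hTT hi)).trans (hx'.1 i hi),
              fun L hL => (hu.2 L hL).trans (hx'.2 L hL)⟩
          exact stage2 Γ Γ' hΓΓ' T₂ x' r D hreg' hbig' hrho' h hiso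
            (fun u hu v hv huv => hstr' u (hsub u hu) v (hsub v hv) huv) Z' hZ') Z hZ
      have e5 : (3 : ℝ) * 2 ^ D * (3 * 2 ^ D) = 9 * 4 ^ D := by
        rw [show (4 : ℝ) = 2 * 2 by norm_num, mul_pow]; ring
      rw [e5] at h9
      exact h9) Y hY
  have e6 : (3 : ℝ) * 2 ^ D * (9 * 4 ^ D) = 27 * 8 ^ D := by
    rw [show (8 : ℝ) = 2 * 4 by norm_num, mul_pow]; ring
  rw [e6] at hmain
  exact hmain

end Pool.Agent.Helper32.QS
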