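import Pool.Agent.Helper32.QS.Z
import Pool.Agent.Helper21.LinSys.Progress

/-!
# Disjoint correcting sets for regular groups of linear forms
-/

set_option autoImplicit false

namespace Pool.Agent.Helper32.QS

open Finset
open Pool.Agent.Helper21.LinSys

variable {ι : Type*} [Fintype ι] [DecidableEq ι] {M : ℕ}

/-- The sign of the change at `i` of a form when the coordinate `i` of `x` is flipped. -/
def sg (x : ι → Bool) (i : ι) (a : ZMod M) : ZMod M := if x i = true then -a else a

omit [Fintype ι] [DecidableEq ι] in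
lemma sg_add (x : ι → Bool) (i : ι) (a b : ZMod M) : sg x i (a + b) = sg x i a + sg x i b := by
  unfold sg; split
  · ring
  · rfl

omit [Fintype ι] [DecidableEq ι] in
lemma sg_zero (x : ι → Bool) (i : ι) : sg x i (0 : ZMod M) = 0 := by
  unfold sg; split <;> simp

omit [Fintype ι] [DecidableEq ι] in
lemma sg_neg (x : ι → Bool) (i : ι) (a : ZMod M) : sg x i (-a) = -sg x i a := by
  unfold sg; split <;> simp

omit [Fintype ι] [DecidableEq ι] in
lemma sg_eq_zero (x : ι → Bool) (i : ι) (a : ZMod M) : sg x i a = 0 ↔ a = 0 := by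
  unfold sg; split <;> simp

lemma ev_flip (L : ι → ZMod M) (x : ι → Bool) (B : Finset ι) :
    ev L (flip x B) = ev L x + ∑ i ∈ B, sg x i (L i) := by
  unfold ev
  have h1 : ∑ i ∈ B, sg x i (L i) = ∑ i, if i ∈ B then sg x i (L i) else 0 := by
    rw [← Finset.sum_filter]
    simp
  rw [h1, ← Finset.sum_add_distrib]
  refine Finset.sum_congr rfl fun i _ => ?_
  by_cases hB : i ∈ B
  · rw [flip_apply_of_mem x hB, if_pos hB]
    unfold sg
    cases x i <;> simp
  · rw [flip_apply_of_notMem x hB, if_neg hB]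
    simp

lemma ev_flip_biUnion {D : ℕ} (L : ι → ZMod M) (x : ι → Bool) (B : Fin D → Finset ι)
    (hB : ∀ i j, i ≠ j → Disjoint (B i) (B j)) (K : Finset (Fin D)) :
    ev L (flip x (K.biUnion B)) = ev L x + ∑ k ∈ K, (ev L (flip x (B k)) - ev L x) := by
  rw [ev_flip, Finset.sum_biUnion]
  · congr 1
    refine Finset.sum_congr rfl fun k _ => ?_
    rw [ev_flip]; ring
  · intro i _ j _ hij
    exact hB i j hij

/-- The damping factor of the assignments. -/
noncomputable def kap (M D : ℕ) : ℝ := 1 - 2 * (1 - rho M) / (D + 1)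

lemma kap_le_one (M D : ℕ) : kap M D ≤ 1 := by
  unfold kap
  have h1 := rho_le_one M
  have : (0 : ℝ) ≤ 2 * (1 - rho M) / (D + 1) := by
    apply div_nonneg
    · linarith
    · positivity
  linarith

lemma kap_mul (M D : ℕ) : (D + 1 : ℝ) * kap M D = D - 1 + 2 * rho M := by
  unfold kap
  have : (D + 1 : ℝ) ≠ 0 := by positivity
  field_simp
  ring

lemma kap_nonneg (M D : ℕ) (hD : 1 ≤ D) : 0 ≤ kap M D := by
  have h1 := kap_mul M D
  have h2 := rho_pos M
  have h3 : (1 : ℝ) ≤ D := by exact_mod_cast hD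
  have h4 : (0 : ℝ) < D + 1 := by positivity
  by_contra hc
  push Not at hc
  have := mul_neg_of_pos_of_neg h4 hc
  linarith

lemma norm_factor_le [NeZero M] {D : ℕ} (c : Fin D → ZMod M) :
    ‖(1 : ℂ) + ∑ k, ZMod.stdAddChar (c k)‖ ≤ D + 1 := by
  refine (norm_add_le _ _).trans ?_
  have h1 : ‖∑ k, (ZMod.stdAddChar (c k) : ℂ)‖ ≤ D := by
    refine (norm_sum_le _ _).trans ?_
    rw [Finset.sum_congr rfl fun k _ => norm_char (c k)]
    simp
  rw [norm_one]
  linarith

lemma norm_factor_lt [NeZero M] {D : ℕ} (c : Fin D → ZMod M) (k₀ : Fin D) (hc : c k₀ ≠ 0) :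
    ‖(1 : ℂ) + ∑ k, ZMod.stdAddChar (c k)‖ ≤ (D + 1) * kap M D := by
  rw [kap_mul, ← Finset.add_sum_erase _ _ (Finset.mem_univ k₀), ← add_assoc]
  refine (norm_add_le _ _).trans ?_
  have h1 : ‖∑ k ∈ Finset.univ.erase k₀, (ZMod.stdAddChar (c k) : ℂ)‖ ≤ (D : ℝ) - 1 := by
    refine (norm_sum_le _ _).trans ?_
    rw [Finset.sum_congr rfl fun k _ => norm_char (c k)]
    rw [Finset.sum_const, Finset.card_erase_of_mem (Finset.mem_univ _), Finset.card_univ,
      Fintype.card_fin, nsmul_eq_mul, mul_one]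
    have : 1 ≤ D := by
      have := k₀.2; omega
    rw [Nat.cast_sub this]
    simp
  have h2 := norm_one_add_le (c k₀) hc
  linarith

/-- Disjoint sets of coordinates outside `T` whose flips change the values of the forms of `Γ`
in prescribed ways. -/
theorem exists_assign [NeZero M] (Γ : AddSubgroup (ι → ZMod M)) (T : Finset ι) (x : ι → Bool)
    (r D : ℕ) (hreg : ∀ L ∈ Γ, L ∈ sup M T ∨ r ≤ off T L) (g : Fin D → Γ →+ ZMod M)
    (hg : ∀ k, ∀ L : Γ, (L : ι → ZMod M) ∈ sup M T → g k L = 0)
    (hbig : (Nat.card Γ : ℝ) ^ D * kap M D ^ r < 1) :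
    ∃ C : Fin D → Finset ι, (∀ k, Disjoint (C k) T) ∧
      (∀ k l, k ≠ l → Disjoint (C k) (C l)) ∧
      ∀ k, ∀ L : Γ, ev (L : ι → ZMod M) (flip x (C k)) = ev (L : ι → ZMod M) x + g k L := by
  classical
  rcases Nat.eq_zero_or_pos D with rfl | hDpos
  · exact ⟨fun k => k.elim0, fun k => k.elim0, fun k => k.elim0, fun k => k.elim0⟩
  have : Fintype Γ := Fintype.ofFinite _
  -- assignments
  let A : Finset (ι → Option (Fin D)) :=
    Fintype.piFinset fun i => if i ∈ T then {none} else univ
  let δ : (ι → Option (Fin D)) → Fin D → (ι → ZMod M) → ZMod M :=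
    fun a k L => ∑ i, if a i = some k then sg x i (L i) else 0
  have hδadd : ∀ a k L L', δ a k (L + L') = δ a k L + δ a k L' := by
    intro a k L L'
    simp only [δ]
    rw [← Finset.sum_add_distrib]
    refine Finset.sum_congr rfl fun i _ => ?_
    split
    · rw [Pi.add_apply, sg_add]
    · simp
  have hδzero : ∀ a k, δ a k 0 = 0 := by
    intro a k
    simp only [δ]
    refine Finset.sum_eq_zero fun i _ => ?_
    split
    · rw [Pi.zero_apply, sg_zero]
    · rfl
  -- it suffices to find a good assignment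
  suffices hsuff : ∃ a ∈ A, ∀ k, ∀ L : Γ, δ a k L = g k L by
    obtain ⟨a, haA, ha⟩ := hsuff
    refine ⟨fun k => univ.filter fun i => a i = some k, ?_, ?_, ?_⟩
    · intro k
      rw [Finset.disjoint_left]
      intro i hi hiT
      rw [Finset.mem_filter] at hi
      have h1 := Fintype.mem_piFinset.mp haA i
      rw [if_pos hiT, Finset.mem_singleton] at h1
      rw [h1] at hi
      exact absurd hi.2 (by simp)
    · intro k l hkl
      rw [Finset.disjoint_left]
      intro i hi hi'
      rw [Finset.mem_filter] at hi hi'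
      rw [hi.2] at hi'
      exact hkl (Option.some_injective _ hi'.2)
    · intro k L
      rw [ev_flip]
      congr 1
      rw [← ha k L, Finset.sum_filter]
  by_contra hcon
  push Not at hcon
  -- the character sums
  let E : (ι → Option (Fin D)) → Fin D → Γ → ℂ := fun a k L =>
    ZMod.stdAddChar (δ a k L - g k L)
  have hsum0 : ∀ a ∈ A, ∏ k, ∑ L : Γ, E a k L = 0 := by
    intro a ha
    obtain ⟨k, L, hL⟩ := hcon a ha
    refine Finset.prod_eq_zero (Finset.mem_univ k) ?_
    let φ : Γ →+ ZMod M :=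
      { toFun := fun L => δ a k L - g k L
        map_zero' := by
          have h := hδzero a k
          simp [h]
        map_add' := fun L L' => by
          have h := hδadd a k L L'
          simp only [AddSubgroup.coe_add, map_add]
          rw [h]; ring }
    let ψ : AddChar Γ ℂ := ZMod.stdAddChar.compAddMonoidHom φ
    have hψ : ∀ L : Γ, ψ L = E a k L := fun L => rfl
    rw [← Finset.sum_congr rfl fun L _ => hψ L, AddChar.sum_eq_ite, if_neg]
    intro h0
    rw [AddChar.eq_zero_iff] at h0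
    have h1 := h0 L
    have h2 : (ZMod.stdAddChar (δ a k L - g k L) : ℂ) = ZMod.stdAddChar (0 : ZMod M) := by
      rw [AddChar.map_zero_eq_one]
      exact h1
    exact hL (sub_eq_zero.1 (ZMod.injective_stdAddChar h2))
  have htot : ∑ Ls : Fin D → Γ, ∑ a ∈ A, ∏ k, E a k (Ls k) = 0 := by
    rw [Finset.sum_comm]
    refine Finset.sum_eq_zero fun a ha => ?_
    rw [← hsum0 a ha, Finset.prod_univ_sum]
    refine Finset.sum_congr ?_ fun _ _ => rfl
    simp
  -- evaluation of the inner sums
  have hterm : ∀ Ls : Fin D → Γ, ∑ a ∈ A, ∏ k, E a k (Ls k) =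
      (∏ i, if i ∈ T then (1 : ℂ) else 1 + ∑ k, ZMod.stdAddChar (sg x i ((Ls k : ι → ZMod M) i))) *
        ∏ k, ZMod.stdAddChar (-g k (Ls k)) := by
    intro Ls
    have h1 : ∀ a : ι → Option (Fin D), ∏ k, E a k (Ls k) =
        (∏ i, (match a i with
          | none => (1 : ℂ)
          | some k => ZMod.stdAddChar (sg x i ((Ls k : ι → ZMod M) i)))) *
          ∏ k, ZMod.stdAddChar (-g k (Ls k)) := by
      intro a
      have h2 : ∀ k, E a k (Ls k) = (∏ i, if a i = some k then
          (ZMod.stdAddChar (sg x i ((Ls k : ι → ZMod M) i)) : ℂ) else 1) *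
          ZMod.stdAddChar (-g k (Ls k)) := by
        intro k
        simp only [E]
        rw [sub_eq_add_neg, AddChar.map_add_eq_mul]
        congr 1
        have h3 : ∀ s : Finset ι, (ZMod.stdAddChar (∑ i ∈ s, if a i = some k then
            sg x i ((Ls k : ι → ZMod M) i) else 0) : ℂ) = ∏ i ∈ s, if a i = some k then
            (ZMod.stdAddChar (sg x i ((Ls k : ι → ZMod M) i)) : ℂ) else 1 := by
          intro s
          induction s using Finset.induction_on with
          | empty => simp
          | insert i s hi ih =>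
            rw [Finset.sum_insert hi, Finset.prod_insert hi, AddChar.map_add_eq_mul, ih]
            congr 1
            split <;> simp
        exact h3 univ
      rw [Finset.prod_congr rfl fun k _ => h2 k, Finset.prod_mul_distrib]
      congr 1
      rw [Finset.prod_comm]
      refine Finset.prod_congr rfl fun i _ => ?_
      cases hai : a i with
      | none => simp
      | some l =>
        rw [Finset.prod_eq_single l]
        · simp
        · intro k _ hk
          rw [if_neg]
          intro h; exact hk (Option.some_injective _ h).symm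
        · intro h; exact absurd (Finset.mem_univ _) h
    rw [Finset.sum_congr rfl fun a _ => h1 a, ← Finset.sum_mul]
    congr 1
    have h4 := (Finset.prod_univ_sum
      (fun i : ι => if i ∈ T then ({none} : Finset (Option (Fin D))) else univ)
      (fun i b => (match b with
          | none => (1 : ℂ)
          | some k => ZMod.stdAddChar (sg x i ((Ls k : ι → ZMod M) i))))).symm
    rw [h4]
    refine Finset.prod_congr rfl fun i _ => ?_
    by_cases hi : i ∈ T
    · rw [if_pos hi, if_pos hi, Finset.sum_singleton]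
    · rw [if_neg hi, if_neg hi, Fintype.sum_option]
  set U : ℝ := (D + 1 : ℝ) ^ Tᶜ.card with hU
  have hUpos : 0 < U := by positivity
  have hprodconst : ∀ c : ℝ, ∏ i : ι, (if i ∈ T then (1 : ℝ) else c) = c ^ Tᶜ.card := by
    intro c
    have : ∀ i : ι, (if i ∈ T then (1 : ℝ) else c) = if i ∈ Tᶜ then c else 1 := by
      intro i; by_cases hi : i ∈ T <;> simp [hi]
    rw [Finset.prod_congr rfl fun i _ => this i, Finset.prod_ite_mem, Finset.univ_inter,
      Finset.prod_const]
  let Tr : Finset (Fin D → Γ) := univ.filter fun Ls => ∀ k, (Ls k : ι → ZMod M) ∈ sup M T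
  have htriv : ∀ Ls ∈ Tr, ∑ a ∈ A, ∏ k, E a k (Ls k) = (U : ℂ) := by
    intro Ls hLs
    rw [Finset.mem_filter] at hLs
    rw [hterm Ls]
    have h1 : ∏ k, (ZMod.stdAddChar (-g k (Ls k)) : ℂ) = 1 := by
      refine Finset.prod_eq_one fun k _ => ?_
      rw [hg k (Ls k) (hLs.2 k), neg_zero, AddChar.map_zero_eq_one]
    rw [h1, mul_one]
    have h2 : ∀ i : ι, (if i ∈ T then (1 : ℂ) else 1 + ∑ k, ZMod.stdAddChar
        (sg x i ((Ls k : ι → ZMod M) i))) = ((if i ∈ T then (1 : ℝ) else (D + 1 : ℝ) : ℝ) : ℂ) := by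
      intro i
      by_cases hi : i ∈ T
      · simp [hi]
      · rw [if_neg hi, if_neg hi]
        have h3 : ∀ k, (ZMod.stdAddChar (sg x i ((Ls k : ι → ZMod M) i)) : ℂ) = 1 := by
          intro k
          rw [hLs.2 k i hi, sg_zero, AddChar.map_zero_eq_one]
        rw [Finset.sum_congr rfl fun k _ => h3 k]
        push_cast
        simp
        ring
    rw [Finset.prod_congr rfl fun i _ => h2 i, ← Complex.ofReal_prod, hprodconst]
  have hnontriv : ∀ Ls ∉ Tr, ‖∑ a ∈ A, ∏ k, E a k (Ls k)‖ ≤ U * kap M D ^ r := by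
    intro Ls hLs
    have hex : ∃ k, (Ls k : ι → ZMod M) ∉ sup M T := by
      by_contra hc
      push Not at hc
      exact hLs (Finset.mem_filter.mpr ⟨Finset.mem_univ _, hc⟩)
    obtain ⟨k₀, hk₀⟩ := hex
    have hoff : r ≤ off T (Ls k₀ : ι → ZMod M) := by
      rcases hreg _ (Ls k₀).2 with h | h
      · exact absurd h hk₀
      · exact h
    rw [hterm Ls, norm_mul, norm_prod, norm_prod]
    have h1 : ∏ k, ‖(ZMod.stdAddChar (-g k (Ls k)) : ℂ)‖ = 1 :=
      Finset.prod_eq_one fun k _ => norm_char _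
    rw [h1, mul_one]
    set F := univ.filter fun i => i ∉ T ∧ (Ls k₀ : ι → ZMod M) i ≠ 0 with hF
    have h2 : ∀ i : ι, ‖(if i ∈ T then (1 : ℂ) else 1 + ∑ k, ZMod.stdAddChar
        (sg x i ((Ls k : ι → ZMod M) i)))‖ ≤
        (if i ∈ T then (1 : ℝ) else (D + 1 : ℝ)) * (if i ∈ F then kap M D else 1) := by
      intro i
      by_cases hi : i ∈ T
      · have : i ∉ F := by
          rw [hF, Finset.mem_filter]; tauto
        simp [hi, this]
      · rw [if_neg hi, if_neg hi]
        by_cases hF' : i ∈ F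
        · rw [if_pos hF']
          refine norm_factor_lt _ k₀ ?_
          rw [hF, Finset.mem_filter] at hF'
          intro h0
          exact hF'.2.2 ((sg_eq_zero x i _).mp h0)
        · rw [if_neg hF', mul_one]
          exact norm_factor_le _
    refine (Finset.prod_le_prod (fun i _ => norm_nonneg _) fun i _ => h2 i).trans ?_
    rw [Finset.prod_mul_distrib, hprodconst, Finset.prod_ite_mem, Finset.univ_inter,
      Finset.prod_const]
    refine mul_le_mul_of_nonneg_left ?_ hUpos.le
    exact pow_le_pow_of_le_one (kap_nonneg M D hDpos) (kap_le_one M D) hoff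
  -- contradiction
  have hsplit : ∑ Ls : Fin D → Γ, ∑ a ∈ A, ∏ k, E a k (Ls k) =
      ∑ Ls ∈ Tr, ∑ a ∈ A, ∏ k, E a k (Ls k) + ∑ Ls ∈ Trᶜ, ∑ a ∈ A, ∏ k, E a k (Ls k) :=
    (Finset.sum_add_sum_compl Tr _).symm
  rw [htot, Finset.sum_congr rfl htriv, Finset.sum_const, nsmul_eq_mul] at hsplit
  have hn1 : ((Tr.card : ℂ) * (U : ℂ)) = -∑ Ls ∈ Trᶜ, ∑ a ∈ A, ∏ k, E a k (Ls k) := by
    rw [eq_neg_iff_add_eq_zero]; exact hsplit.symm
  have hn2 : (Tr.card : ℝ) * U ≤ (Nat.card Γ : ℝ) ^ D * (U * kap M D ^ r) := by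
    have h1 : ‖((Tr.card : ℂ) * (U : ℂ))‖ = (Tr.card : ℝ) * U := by
      rw [norm_mul, Complex.norm_natCast, Complex.norm_real, Real.norm_of_nonneg hUpos.le]
    rw [← h1, hn1, norm_neg]
    refine (norm_sum_le _ _).trans ?_
    refine (Finset.sum_le_sum fun Ls hLs => hnontriv Ls (Finset.mem_compl.mp hLs)).trans ?_
    rw [Finset.sum_const, nsmul_eq_mul]
    refine mul_le_mul_of_nonneg_right ?_
      (mul_nonneg hUpos.le (pow_nonneg (kap_nonneg M D hDpos) _))
    have h2 : Trᶜ.card ≤ Fintype.card (Fin D → Γ) := Finset.card_le_univ _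
    rw [Fintype.card_fun, Fintype.card_fin, ← Nat.card_eq_fintype_card] at h2
    exact_mod_cast h2
  have hn3 : (1 : ℝ) ≤ Tr.card := by
    have : 0 < Tr.card := Finset.card_pos.mpr ⟨0, by
      rw [Finset.mem_filter]
      exact ⟨Finset.mem_univ _, fun k => (sup M T).zero_mem⟩⟩
    exact_mod_cast this
  have hn4 : U ≤ U * ((Nat.card Γ : ℝ) ^ D * kap M D ^ r) := by
    calc U ≤ (Tr.card : ℝ) * U := by nlinarith
      _ ≤ _ := hn2
      _ = _ := by ring
  nlinarith

end Pool.Agent.Helper32.QS
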