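import Pool.Agent.Helper32.QS.Density
import Pool.Agent.Helper27.QS.Defs

/-!
# Density for structured systems of quadratic forms
-/

set_option autoImplicit false

namespace Pool.Agent.Helper32.QS

open Finset
open Pool.Agent.Helper21.LinSys Pool.Agent.Helper27.QS

variable {ι : Type*} [Fintype ι] [DecidableEq ι] {l : ℕ}

theorem qv_LD (A : ι → ι → ZMod l) : LD l 2 (qv A) := by
  unfold LD
  have h1 : (fun z : Finset ι => qv A (fun i => decide (i ∈ z))) =
      ∑ i, ∑ j, A i j • mono (ZMod l) ({i, j} : Finset ι) := by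
    funext z
    rw [Finset.sum_apply]
    unfold qv
    refine Finset.sum_congr rfl fun i _ => ?_
    rw [Finset.sum_apply]
    refine Finset.sum_congr rfl fun j _ => ?_
    rw [Pi.smul_apply, smul_eq_mul]
    simp only [mono, decide_eq_true_eq]
    by_cases h : i ∈ z ∧ j ∈ z
    · have h2 : ({i, j} : Finset ι) ⊆ z := by
        intro x hx
        rw [Finset.mem_insert, Finset.mem_singleton] at hx
        rcases hx with rfl | rfl
        · exact h.1
        · exact h.2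
      rw [if_pos h, if_pos h2, mul_one]
    · have h2 : ¬ ({i, j} : Finset ι) ⊆ z := by
        intro hs
        exact h ⟨hs (by simp), hs (by simp)⟩
      rw [if_neg h, if_neg h2, mul_zero]
  rw [h1]
  refine Submodule.sum_mem _ fun i _ => Submodule.sum_mem _ fun j _ => ?_
  exact Submodule.smul_mem _ _ (mono_mem _ Finset.card_le_two)

theorem rho_lt_one (hl : 1 ≤ l) : rho l < 1 := by
  unfold rho
  rw [Real.exp_lt_one_iff]
  have h1 : (0 : ℝ) < l := by exact_mod_cast hl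
  have : (0 : ℝ) < 2 / (l : ℝ) ^ 2 := by positivity
  linarith

theorem kap_lt_one (hl : 1 ≤ l) (D : ℕ) : kap l D < 1 := by
  unfold kap
  have h1 := rho_lt_one hl
  have : (0 : ℝ) < 2 * (1 - rho l) / (D + 1) := by
    apply div_pos
    · linarith
    · positivity
  linarith

theorem rho_le_kap (D : ℕ) (hD : 1 ≤ D) : rho l ≤ kap l D := by
  unfold kap
  have h1 := rho_le_one l
  have h2 : (2 : ℝ) ≤ D + 1 := by
    have : (1 : ℝ) ≤ D := by exact_mod_cast hD
    linarith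
  have h3 : 2 * (1 - rho l) / (D + 1) ≤ 1 - rho l := by
    rw [div_le_iff₀ (by linarith)]
    nlinarith
  linarith

/-- The dimension of the block cubes used for `w` quadratic forms modulo `l`. -/
def Dd (l w : ℕ) : ℕ := ZB (w * (l * 2)) 2 l.primeFactorsList.length

/-- Density of the fibres of structured systems of `w` quadratic forms. -/
theorem density_str (l w : ℕ) (hl : 2 ≤ l) : ∃ C : ℕ, ∀ (ι : Type) [Fintype ι] [DecidableEq ι]
    (Γ : AddSubgroup (ι → ZMod l)) (T T₁ : Finset ι) (y : ι → Bool)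
    (A : Fin w → ι → ι → ZMod l) (R k n₀ s : ℕ),
    T ⊆ T₁ → (T₁ \ T).card ≤ k → (∀ j, Str (qv (A j)) Γ T₁ s) →
    s ^ w * Nat.card Γ ≤ 2 ^ n₀ → Reg Γ T R → C * (k + (n₀ + 1) ^ 2) ≤ R →
    ∀ Y : Finset (ι → Bool),
      (∀ u ∈ fibz Γ T y y, (∀ j, qv (A j) u = qv (A j) y) → u ∈ Y) →
      ((fibz Γ T y y).card : ℝ) ≤ 27 * 8 ^ Dd l w * Y.card := by
  classical
  have : NeZero l := ⟨by omega⟩
  set D := Dd l w with hDdef
  have hD1 : 1 ≤ D := ZB_pos _ _ _
  have hk0 : 0 ≤ kap l D := kap_nonneg l D hD1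
  have hk1 : kap l D < 1 := kap_lt_one (by omega) D
  obtain ⟨c, hc⟩ := exists_pow_lt_of_lt_one (show (0 : ℝ) < 1 / 2 ^ (D + 1) by positivity) hk1
  refine ⟨2 * c + 2, ?_⟩
  intro ι _ _ Γ T T₁ y A R k n₀ s hT hk hstr hcard hReg hR Y hY
  obtain ⟨N, hN⟩ : ∃ N, N = n₀ + 1 := ⟨_, rfl⟩
  rw [← hN] at hR
  -- parameters
  set r := c * N + 1 with hr
  have hkr : kap l D ^ r ≤ (1 / 2 ^ (D + 1)) ^ N := by
    rw [hr]
    calc kap l D ^ (c * N + 1) ≤ kap l D ^ (c * N) :=
          pow_le_pow_of_le_one hk0 hk1.le (Nat.le_succ _)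
      _ = (kap l D ^ c) ^ N := by rw [pow_mul]
      _ ≤ (1 / 2 ^ (D + 1)) ^ N := pow_le_pow_left₀ (pow_nonneg hk0 _) hc.le N
  have hcardR : ((s ^ w : ℕ) : ℝ) * Nat.card Γ ≤ 2 ^ n₀ := by exact_mod_cast hcard
  have hcard0 : (0 : ℝ) ≤ ((s ^ w : ℕ) : ℝ) * Nat.card Γ := by positivity
  have hpow : (2 : ℝ) ^ n₀ ≤ 2 ^ N := pow_le_pow_right₀ (by norm_num) (by omega)
  have hhalf : ((2 : ℝ) ^ N) ^ D * (1 / 2 ^ (D + 1)) ^ N = (1 / 2) ^ N := by
    rw [div_pow, div_pow, one_pow, ← pow_mul, ← pow_mul, mul_one_div, mul_comm N D]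
    rw [show (D + 1) * N = D * N + N by ring, pow_add]
    field_simp
  have hlt : ((1 : ℝ) / 2) ^ N ≤ 1 / 2 := by
    rw [hN]
    calc ((1 : ℝ) / 2) ^ (n₀ + 1) ≤ (1 / 2) ^ 1 :=
          pow_le_pow_of_le_one (by norm_num) (by norm_num) (by omega)
      _ = 1 / 2 := pow_one _
  have hbig : (((s ^ w : ℕ) : ℝ) * Nat.card Γ) ^ D * kap l D ^ r < 1 := by
    calc (((s ^ w : ℕ) : ℝ) * Nat.card Γ) ^ D * kap l D ^ r ≤
        ((2 : ℝ) ^ N) ^ D * (1 / 2 ^ (D + 1)) ^ N := by
          refine mul_le_mul (pow_le_pow_left₀ hcard0 (hcardR.trans hpow) D) hkr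
            (pow_nonneg hk0 _) (by positivity)
      _ = (1 / 2) ^ N := hhalf
      _ ≤ 1 / 2 := hlt
      _ < 1 := by norm_num
  have hrho : ((s ^ w : ℕ) : ℝ) * Nat.card Γ * rho l ^ r ≤ 1 / 2 := by
    have h1 : rho l ^ r ≤ kap l D ^ r :=
      pow_le_pow_left₀ (rho_pos l).le (rho_le_kap D hD1) r
    have h2 : (2 : ℝ) ^ N ≤ ((2 : ℝ) ^ N) ^ D := by
      calc (2 : ℝ) ^ N = ((2 : ℝ) ^ N) ^ 1 := (pow_one _).symm
        _ ≤ _ := pow_le_pow_right₀ (one_le_pow₀ (by norm_num)) hD1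
    calc ((s ^ w : ℕ) : ℝ) * Nat.card Γ * rho l ^ r ≤
        ((2 : ℝ) ^ N) ^ D * (1 / 2 ^ (D + 1)) ^ N := by
          refine mul_le_mul ((hcardR.trans hpow).trans h2) (h1.trans hkr)
            (pow_nonneg (rho_pos l).le _) (by positivity)
      _ = (1 / 2) ^ N := hhalf
      _ ≤ 1 / 2 := hlt
  have hsw : s ^ w < 2 ^ N := by
    have h1 : s ^ w ≤ s ^ w * Nat.card Γ := Nat.le_mul_of_pos_right _ Nat.card_pos
    calc s ^ w ≤ 2 ^ n₀ := h1.trans hcard
      _ < 2 ^ N := Nat.pow_lt_pow_right (by norm_num) (by omega)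
  have hR' : (T₁ \ T).card + (r * N + r) ≤ R := by
    refine le_trans ?_ hR
    have hN1 : 1 ≤ N := by omega
    have h1 : r * N + r ≤ (2 * c + 2) * N ^ 2 := by
      rw [hr]
      nlinarith [Nat.zero_le c, Nat.mul_le_mul_left c hN1, Nat.mul_le_mul hN1 hN1,
        Nat.mul_le_mul_left (c * N) hN1]
    calc (T₁ \ T).card + (r * N + r) ≤ k + (2 * c + 2) * N ^ 2 := Nat.add_le_add hk h1
      _ ≤ (2 * c + 2) * k + (2 * c + 2) * N ^ 2 := by
          refine Nat.add_le_add_right ?_ _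
          exact Nat.le_mul_of_pos_left _ (by omega)
      _ = (2 * c + 2) * (k + N ^ 2) := by ring
  have hmain := density Γ T T₁ hT y R r N D (s ^ w) hReg (by omega) hR' hsw hbig hrho
    (fun x (j : Fin w) => qv (A j) x)
    (noIso_of_LD (m := l) (d := 2) (by omega) (fun j => qv (A j)) (fun j => qv_LD (A j))
      (le_refl _)) hD1 (by
      intro x _
      have h1 : ∀ j, ∃ Γ' : AddSubgroup (ι → ZMod l), Γ ≤ Γ' ∧
          Nat.card Γ' ≤ s * Nat.card Γ ∧
          ∀ u ∈ fibz Γ T₁ x x, ∀ v ∈ fibz Γ T₁ x x, (∀ L ∈ Γ', ev L u = ev L v) →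
            qv (A j) u = qv (A j) v := fun j => hstr j x
      choose Γj hΓ1 hΓ2 hΓ3 using h1
      have h2 : ∀ J : Finset (Fin w), ∃ Γ' : AddSubgroup (ι → ZMod l), Γ ≤ Γ' ∧
          Nat.card Γ' ≤ s ^ J.card * Nat.card Γ ∧ ∀ j ∈ J, Γj j ≤ Γ' := by
        intro J
        induction J using Finset.induction_on with
        | empty => exact ⟨Γ, le_rfl, by simp, fun j hj => absurd hj (Finset.notMem_empty j)⟩
        | insert j J hj ih =>
          obtain ⟨Γ', e1, e2, e3⟩ := ih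
          refine ⟨Γ' ⊔ Γj j, e1.trans le_sup_left, ?_, ?_⟩
          · rw [Finset.card_insert_of_notMem hj]
            calc Nat.card (Γ' ⊔ Γj j : AddSubgroup (ι → ZMod l)) ≤ s * Nat.card Γ' :=
                card_sup_le e1 (hΓ1 j) (hΓ2 j)
              _ ≤ s * (s ^ J.card * Nat.card Γ) := Nat.mul_le_mul_left _ e2
              _ = _ := by ring
          · intro i hi
            rcases Finset.mem_insert.mp hi with rfl | hi
            · exact le_sup_right
            · exact (e3 i hi).trans le_sup_left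
      obtain ⟨Γ', e1, e2, e3⟩ := h2 Finset.univ
      rw [Finset.card_univ, Fintype.card_fin] at e2
      refine ⟨Γ', e1, e2, fun u hu v hv huv => funext fun j => ?_⟩
      exact hΓ3 j u hu v hv fun L hL => huv L (e3 j (Finset.mem_univ j) hL)) Y (by
      intro u hu hhu
      exact hY u hu fun j => congrFun hhu j)
  exact hmain

end Pool.Agent.Helper32.QS
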