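import Mathlib

/-!
# Functions of low degree on the cube of subsets, over a commutative ring
-/

set_option autoImplicit false

namespace Pool.Agent.Helper32.QS

open Finset

variable {R : Type*} [CommRing R] {V W : Type*} [Fintype V] [DecidableEq V]
  [Fintype W] [DecidableEq W]

/-- The monomial of the variables in `S`, as a function on the cube of subsets. -/
def mono (R : Type*) [CommRing R] {V : Type*} [DecidableEq V] (S : Finset V) : Finset V → R :=
  fun z => if S ⊆ z then 1 else 0

/-- Functions on the cube that are combinations of monomials of at most `D` variables. -/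
def lowDeg (R : Type*) [CommRing R] (V : Type*) [DecidableEq V] (D : ℕ) :
    Submodule R (Finset V → R) :=
  Submodule.span R {f | ∃ S : Finset V, S.card ≤ D ∧ f = mono R S}

omit [Fintype V] in
lemma mono_mem {D : ℕ} (S : Finset V) (h : S.card ≤ D) : mono R S ∈ lowDeg R V D :=
  Submodule.subset_span ⟨S, h, rfl⟩

omit [Fintype V] in
lemma mono_mul (S T : Finset V) : mono R S * mono R T = mono R (S ∪ T) := by
  funext z
  simp only [mono, Pi.mul_apply, Finset.union_subset_iff]
  by_cases h1 : S ⊆ z <;> by_cases h2 : T ⊆ z <;> simp [h1, h2]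

omit [Fintype V] in
lemma lowDeg_mono {D E : ℕ} (h : D ≤ E) : lowDeg R V D ≤ lowDeg R V E := by
  refine Submodule.span_mono ?_
  rintro f ⟨S, hS, rfl⟩
  exact ⟨S, hS.trans h, rfl⟩

omit [Fintype V] in
lemma one_mem_lowDeg (D : ℕ) : (1 : Finset V → R) ∈ lowDeg R V D := by
  have : (1 : Finset V → R) = mono R ∅ := by
    funext z; simp [mono]
  rw [this]
  exact mono_mem _ (by simp)

omit [Fintype V] in
lemma const_mem_lowDeg (D : ℕ) (c : R) : (fun _ => c : Finset V → R) ∈ lowDeg R V D := by
  have : (fun _ => c : Finset V → R) = c • (1 : Finset V → R) := by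
    funext z; simp
  rw [this]
  exact Submodule.smul_mem _ _ (one_mem_lowDeg D)

omit [Fintype V] in
lemma mul_mem_lowDeg {D E : ℕ} {f g : Finset V → R} (hf : f ∈ lowDeg R V D)
    (hg : g ∈ lowDeg R V E) : f * g ∈ lowDeg R V (D + E) := by
  induction hf using Submodule.span_induction with
  | mem f hf =>
    obtain ⟨S, hS, rfl⟩ := hf
    induction hg using Submodule.span_induction with
    | mem g hg =>
      obtain ⟨T, hT, rfl⟩ := hg
      rw [mono_mul]
      exact mono_mem _ ((card_union_le _ _).trans (Nat.add_le_add hS hT))
    | zero => simp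
    | add g h _ _ hg hh => rw [mul_add]; exact Submodule.add_mem _ hg hh
    | smul a g _ hg => rw [mul_smul_comm]; exact Submodule.smul_mem _ _ hg
  | zero => simp
  | add f h _ _ hf hh => rw [add_mul]; exact Submodule.add_mem _ hf hh
  | smul a f _ hf => rw [smul_mul_assoc]; exact Submodule.smul_mem _ _ hf

omit [Fintype V] in
lemma pow_mem_lowDeg {D : ℕ} {f : Finset V → R} (hf : f ∈ lowDeg R V D) (k : ℕ) :
    f ^ k ∈ lowDeg R V (k * D) := by
  induction k with
  | zero => simpa using one_mem_lowDeg 0
  | succ k ih =>
    rw [pow_succ, Nat.succ_mul]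
    exact mul_mem_lowDeg ih hf

omit [Fintype V] in
lemma prod_mem_lowDeg {ι : Type*} {D : ℕ} (s : Finset ι) (f : ι → Finset V → R)
    (hf : ∀ i ∈ s, f i ∈ lowDeg R V D) : (∏ i ∈ s, f i) ∈ lowDeg R V (s.card * D) := by
  classical
  induction s using Finset.induction_on with
  | empty => simpa using one_mem_lowDeg 0
  | insert a s ha ih =>
    rw [prod_insert ha, card_insert_of_notMem ha, Nat.succ_mul, add_comm]
    exact mul_mem_lowDeg (hf a (mem_insert_self a s))
      (ih fun i hi => hf i (mem_insert_of_mem hi))

omit [Fintype V] in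
lemma sum_mem_lowDeg {ι : Type*} {D : ℕ} (s : Finset ι) (f : ι → Finset V → R)
    (hf : ∀ i ∈ s, f i ∈ lowDeg R V D) : (∑ i ∈ s, f i) ∈ lowDeg R V D :=
  Submodule.sum_mem _ hf

omit [Fintype V] in
lemma mem_lit (j : V) : (fun z => if j ∈ z then (1 : R) else 0) ∈ lowDeg R V 1 := by
  have : (fun z : Finset V => if j ∈ z then (1 : R) else 0) = mono R {j} := by
    funext z; simp [mono]
  rw [this]
  exact mono_mem _ (by simp)

omit [Fintype V] in
lemma notMem_lit (j : V) : (fun z => if j ∈ z then (0 : R) else 1) ∈ lowDeg R V 1 := by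
  have : (fun z : Finset V => if j ∈ z then (0 : R) else 1) =
      1 - (fun z => if j ∈ z then (1 : R) else 0) := by
    funext z
    by_cases h : j ∈ z <;> simp [h]
  rw [this]
  exact Submodule.sub_mem _ (one_mem_lowDeg 1) (mem_lit j)

/-- The point `J` of the block cube with base point `A` and blocks `B`. -/
def blk (A : Finset V) (B : W → Finset V) (J : Finset W) : Finset V :=
  symmDiff A (J.biUnion B)

omit [Fintype V] [Fintype W] [DecidableEq W] in
@[simp] lemma blk_empty (A : Finset V) (B : W → Finset V) : blk A B ∅ = A := by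
  simp [blk]

omit [Fintype V] [Fintype W] in
/-- Low degree is preserved under restriction to a block cube. -/
lemma blk_mem_lowDeg {D : ℕ} (A : Finset V) (B : W → Finset V)
    (hB : ∀ i j, i ≠ j → Disjoint (B i) (B j)) {f : Finset V → R} (hf : f ∈ lowDeg R V D) :
    (fun J => f (blk A B J)) ∈ lowDeg R W D := by
  induction hf using Submodule.span_induction with
  | mem f hf =>
    obtain ⟨S, hS, rfl⟩ := hf
    have : (fun J => mono R S (blk A B J)) =
        ∏ i ∈ S, (fun J : Finset W => if i ∈ blk A B J then (1 : R) else 0) := by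
      funext J
      rw [Finset.prod_apply]
      simp only [mono]
      by_cases h : S ⊆ blk A B J
      · rw [if_pos h]
        symm
        exact Finset.prod_eq_one fun i hi => if_pos (h hi)
      · rw [if_neg h]
        symm
        obtain ⟨i, hi, hi2⟩ := Finset.not_subset.mp h
        exact Finset.prod_eq_zero hi (if_neg hi2)
    rw [this]
    have h2 := prod_mem_lowDeg (D := 1) S
      (fun i (J : Finset W) => if i ∈ blk A B J then (1 : R) else 0) (fun i _ => by
        by_cases hex : ∃ j, i ∈ B j
        · obtain ⟨j, hj⟩ := hex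
          have hiff : ∀ J : Finset W, i ∈ J.biUnion B ↔ j ∈ J := by
            intro J
            rw [mem_biUnion]
            constructor
            · rintro ⟨k, hk, hik⟩
              by_contra hjJ
              have hkj : k ≠ j := by rintro rfl; exact hjJ hk
              exact Finset.disjoint_left.mp (hB k j hkj) hik hj
            · intro h; exact ⟨j, h, hj⟩
          by_cases hia : i ∈ A
          · have : (fun J : Finset W => if i ∈ blk A B J then (1 : R) else 0) =
                fun J => if j ∈ J then (0 : R) else 1 := by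
              funext J
              by_cases hz : j ∈ J <;> simp only [blk, mem_symmDiff, hia, hiff, hz] <;> simp
            simpa [this] using notMem_lit (R := R) j
          · have : (fun J : Finset W => if i ∈ blk A B J then (1 : R) else 0) =
                fun J => if j ∈ J then (1 : R) else 0 := by
              funext J
              by_cases hz : j ∈ J <;> simp only [blk, mem_symmDiff, hia, hiff, hz] <;> simp
            simpa [this] using mem_lit (R := R) j
        · push Not at hex
          have hiff : ∀ J : Finset W, i ∉ J.biUnion B := by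
            intro J
            rw [mem_biUnion]
            rintro ⟨k, -, hik⟩
            exact hex k hik
          by_cases hia : i ∈ A
          · have : (fun J : Finset W => if i ∈ blk A B J then (1 : R) else 0) =
                fun _ => (1 : R) := by
              funext J
              simp only [blk, mem_symmDiff, hia, hiff]; simp
            simpa [this] using const_mem_lowDeg (R := R) (V := W) 1 (1 : R)
          · have : (fun J : Finset W => if i ∈ blk A B J then (1 : R) else 0) =
                fun _ => (0 : R) := by
              funext J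
              simp only [blk, mem_symmDiff, hia, hiff]; simp
            simpa [this] using const_mem_lowDeg (R := R) (V := W) 1 (0 : R))
    rw [mul_one] at h2
    exact lowDeg_mono hS h2
  | zero => exact Submodule.zero_mem _
  | add f g _ _ hf hg => exact Submodule.add_mem _ hf hg
  | smul c f _ hf => exact Submodule.smul_mem _ c hf

omit [Fintype V] in
/-- Sums over intervals of sets. -/
lemma sum_supersets {M : Type*} [AddCommGroup M] (S z : Finset V) (hSz : S ⊆ z)
    (g : Finset V → M) :
    ∑ T ∈ z.powerset.filter (fun T => S ⊆ T), g T = ∑ U ∈ (z \ S).powerset, g (S ∪ U) := by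
  refine Finset.sum_bij' (fun T _ => T \ S) (fun U _ => S ∪ U) ?_ ?_ ?_ ?_ ?_
  · intro T hT
    simp only [mem_filter, mem_powerset] at hT
    simp only [mem_powerset]
    exact sdiff_subset_sdiff hT.1 (le_refl S)
  · intro U hU
    simp only [mem_powerset] at hU
    simp only [mem_filter, mem_powerset]
    exact ⟨union_subset hSz (hU.trans sdiff_subset), subset_union_left⟩
  · intro T hT
    simp only [mem_filter, mem_powerset] at hT
    exact union_sdiff_of_subset hT.2
  · intro U hU
    simp only [mem_powerset] at hU
    have hd : Disjoint S U := by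
      rw [Finset.disjoint_left]
      intro i hi hiU
      exact (mem_sdiff.mp (hU hiU)).2 hi
    exact union_sdiff_cancel_left hd
  · intro T hT
    simp only [mem_filter, mem_powerset] at hT
    rw [union_sdiff_of_subset hT.2]

omit [Fintype V] [DecidableEq V] in
lemma alt_sum_one {z : Finset V} (hne : z.Nonempty) :
    ∑ U ∈ z.powerset, (-1 : R) ^ U.card = 0 := by
  have h4 := Finset.sum_powerset_neg_one_pow_card_of_nonempty hne
  have h5 : ((∑ U ∈ z.powerset, (-1 : ℤ) ^ U.card : ℤ) : R) = 0 := by
    rw [h4]; simp
  push_cast at h5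
  exact h5

omit [Fintype V] in
/-- The alternating sum over the subsets of a set with more than `D` elements vanishes on
functions of degree at most `D`. -/
lemma alt_sum_eq_zero {D : ℕ} {f : Finset V → R} (hf : f ∈ lowDeg R V D) (z : Finset V)
    (hz : D < z.card) : ∑ T ∈ z.powerset, (-1 : R) ^ T.card * f T = 0 := by
  induction hf using Submodule.span_induction with
  | mem f hf =>
    obtain ⟨S, hS, rfl⟩ := hf
    by_cases hSz : S ⊆ z
    · have hne : (z \ S).Nonempty := by
        rw [← Finset.card_pos, Finset.card_sdiff_of_subset hSz]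
        omega
      have h1 : ∑ T ∈ z.powerset, (-1 : R) ^ T.card * mono R S T =
          ∑ T ∈ z.powerset.filter (fun T => S ⊆ T), (-1 : R) ^ T.card := by
        rw [Finset.sum_filter]
        refine Finset.sum_congr rfl fun T _ => ?_
        by_cases h : S ⊆ T <;> simp [mono, h]
      rw [h1, sum_supersets S z hSz]
      have h2 : ∑ U ∈ (z \ S).powerset, (-1 : R) ^ (S ∪ U).card =
          (-1 : R) ^ S.card * ∑ U ∈ (z \ S).powerset, (-1 : R) ^ U.card := by
        rw [Finset.mul_sum]
        refine Finset.sum_congr rfl fun U hU => ?_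
        rw [mem_powerset] at hU
        rw [card_union_of_disjoint, pow_add]
        rw [Finset.disjoint_left]
        intro i hi hiU
        exact (mem_sdiff.mp (hU hiU)).2 hi
      rw [h2, alt_sum_one hne, mul_zero]
    · refine Finset.sum_eq_zero fun T hT => ?_
      have : ¬ S ⊆ T := fun h => hSz (h.trans (mem_powerset.mp hT))
      simp [mono, this]
  | zero => simp
  | add f g _ _ hf hg =>
    simp only [Pi.add_apply, mul_add, Finset.sum_add_distrib, hf, hg, add_zero]
  | smul c f _ hf =>
    have : ∑ T ∈ z.powerset, (-1 : R) ^ T.card * (c • f) T =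
        c * ∑ T ∈ z.powerset, (-1 : R) ^ T.card * f T := by
      rw [Finset.mul_sum]
      refine Finset.sum_congr rfl fun T _ => ?_
      simp only [Pi.smul_apply, smul_eq_mul]
      ring
    rw [this, hf, mul_zero]

omit [Fintype V] in
/-- A function of degree at most `D` that vanishes on all sets with at most `D` elements is
zero. -/
lemma eq_zero_of_vanish {D : ℕ} {f : Finset V → R} (hf : f ∈ lowDeg R V D)
    (h0 : ∀ z : Finset V, z.card ≤ D → f z = 0) : ∀ z, f z = 0 := by
  intro z
  induction hn : z.card using Nat.strong_induction_on generalizing z with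
  | _ n ih =>
    by_cases hz : z.card ≤ D
    · exact h0 z hz
    · push Not at hz
      have h1 := alt_sum_eq_zero hf z hz
      rw [← Finset.add_sum_erase _ _ (mem_powerset_self z)] at h1
      have h2 : ∑ T ∈ z.powerset.erase z, (-1 : R) ^ T.card * f T = 0 := by
        refine Finset.sum_eq_zero fun T hT => ?_
        rw [mem_erase, mem_powerset] at hT
        have h3 : T ⊂ z := lt_of_le_of_ne hT.2 hT.1
        rw [ih T.card (by rw [← hn]; exact card_lt_card h3) T rfl, mul_zero]
      rw [h2, add_zero] at h1
      have h4 : ((-1 : R) ^ z.card) * ((-1 : R) ^ z.card) = 1 := by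
        rw [← mul_pow]; simp
      calc f z = ((-1 : R) ^ z.card) * ((-1 : R) ^ z.card) * f z := by rw [h4, one_mul]
        _ = 0 := by rw [mul_assoc, h1, mul_zero]

/-- Möbius inversion. -/
lemma moebius (f : Finset V → R) :
    f = ∑ S : Finset V, (∑ T ∈ S.powerset, (-1 : R) ^ (S.card + T.card) * f T) • mono R S := by
  funext z
  rw [Finset.sum_apply]
  have h1 : ∀ S : Finset V, ((∑ T ∈ S.powerset, (-1 : R) ^ (S.card + T.card) * f T) •
      mono R S) z = if S ⊆ z then ∑ T : Finset V, (if T ⊆ S then
        (-1 : R) ^ (S.card + T.card) * f T else 0) else 0 := by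
    intro S
    have h2 : ∑ T ∈ S.powerset, (-1 : R) ^ (S.card + T.card) * f T =
        ∑ T : Finset V, (if T ⊆ S then (-1 : R) ^ (S.card + T.card) * f T else 0) := by
      rw [← Finset.sum_filter]
      refine Finset.sum_congr ?_ fun _ _ => rfl
      ext T; simp
    rw [← h2]
    by_cases h : S ⊆ z <;> simp [mono, h]
  rw [Finset.sum_congr rfl fun S _ => h1 S]
  have h3 : ∑ S : Finset V, (if S ⊆ z then ∑ T : Finset V, (if T ⊆ S then
        (-1 : R) ^ (S.card + T.card) * f T else 0) else 0) =
      ∑ T : Finset V, (∑ S : Finset V, if T ⊆ S ∧ S ⊆ z then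
        (-1 : R) ^ (S.card + T.card) else 0) * f T := by
    simp_rw [Finset.sum_mul]
    rw [Finset.sum_comm]
    refine Finset.sum_congr rfl fun S _ => ?_
    by_cases h : S ⊆ z
    · rw [if_pos h]
      refine Finset.sum_congr rfl fun T _ => ?_
      by_cases h' : T ⊆ S <;> simp [h, h']
    · rw [if_neg h]
      symm
      refine Finset.sum_eq_zero fun T _ => ?_
      rw [if_neg (fun hh => h hh.2), zero_mul]
  rw [h3]
  rw [Finset.sum_eq_single z]
  · have h4 : ∑ S : Finset V, (if z ⊆ S ∧ S ⊆ z then (-1 : R) ^ (S.card + z.card) else 0) =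
        1 := by
      rw [Finset.sum_eq_single z]
      · simp [← two_mul]
      · intro S _ hS
        rw [if_neg]
        rintro ⟨h, h'⟩
        exact hS (le_antisymm h' h)
      · intro h; exact absurd (mem_univ _) h
    rw [h4, one_mul]
  · intro T _ hT
    have h5 : ∑ S : Finset V, (if T ⊆ S ∧ S ⊆ z then (-1 : R) ^ (S.card + T.card) else 0) =
        0 := by
      by_cases hTz : T ⊆ z
      · have h6 : ∑ S : Finset V, (if T ⊆ S ∧ S ⊆ z then (-1 : R) ^ (S.card + T.card) else 0) =
            ∑ S ∈ z.powerset.filter (fun S => T ⊆ S), (-1 : R) ^ (S.card + T.card) := by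
          rw [← Finset.sum_filter]
          refine Finset.sum_congr ?_ fun _ _ => rfl
          ext S
          simp only [mem_filter, mem_univ, true_and, mem_powerset]
          tauto
        rw [h6, sum_supersets T z hTz]
        have hne : (z \ T).Nonempty := by
          rw [Finset.sdiff_nonempty]
          intro h
          exact hT (le_antisymm hTz h)
        have h7 : ∑ U ∈ (z \ T).powerset, (-1 : R) ^ ((T ∪ U).card + T.card) =
            ∑ U ∈ (z \ T).powerset, (-1 : R) ^ U.card := by
          refine Finset.sum_congr rfl fun U hU => ?_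
          rw [mem_powerset] at hU
          rw [card_union_of_disjoint]
          · rw [show T.card + U.card + T.card = 2 * T.card + U.card by ring, pow_add, pow_mul]
            simp
          · rw [Finset.disjoint_left]
            intro i hi hiU
            exact (mem_sdiff.mp (hU hiU)).2 hi
        rw [h7, alt_sum_one hne]
      · refine Finset.sum_eq_zero fun S _ => ?_
        rw [if_neg]
        rintro ⟨h, h'⟩
        exact hTz (h.trans h')
    rw [h5, zero_mul]
  · intro h; exact absurd (mem_univ _) h

/-- A function all of whose alternating sums over sets with more than `D` elements vanish has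
degree at most `D`. -/
lemma mem_lowDeg_of_alt {D : ℕ} {f : Finset V → R}
    (h : ∀ z : Finset V, D < z.card → ∑ T ∈ z.powerset, (-1 : R) ^ T.card * f T = 0) :
    f ∈ lowDeg R V D := by
  rw [moebius f]
  refine Submodule.sum_mem _ fun S _ => ?_
  by_cases hS : S.card ≤ D
  · exact Submodule.smul_mem _ _ (mono_mem S hS)
  · push Not at hS
    have : ∑ T ∈ S.powerset, (-1 : R) ^ (S.card + T.card) * f T = 0 := by
      have h1 : ∑ T ∈ S.powerset, (-1 : R) ^ (S.card + T.card) * f T =
          (-1 : R) ^ S.card * ∑ T ∈ S.powerset, (-1 : R) ^ T.card * f T := by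
        rw [Finset.mul_sum]
        refine Finset.sum_congr rfl fun T _ => ?_
        rw [pow_add]; ring
      rw [h1, h S hS, mul_zero]
    rw [this, zero_smul]
    exact Submodule.zero_mem _

/-- Division by `p` preserves the degree. -/
lemma div_mem_lowDeg {D : ℕ} {f g : Finset V → ℤ} {p : ℤ} (hp : p ≠ 0)
    (hf : f ∈ lowDeg ℤ V D) (h : ∀ z, f z = p * g z) : g ∈ lowDeg ℤ V D := by
  refine mem_lowDeg_of_alt fun z hz => ?_
  have h1 := alt_sum_eq_zero hf z hz
  have h2 : ∑ T ∈ z.powerset, (-1 : ℤ) ^ T.card * f T =
      p * ∑ T ∈ z.powerset, (-1 : ℤ) ^ T.card * g T := by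
    rw [Finset.mul_sum]
    refine Finset.sum_congr rfl fun T _ => ?_
    rw [h T]; ring
  rw [h2] at h1
  exact (mul_eq_zero.mp h1).resolve_left hp

omit [Fintype V] in
/-- Change of rings. -/
lemma map_mem_lowDeg {R' : Type*} [CommRing R'] (φ : R →+* R') {D : ℕ} {f : Finset V → R}
    (hf : f ∈ lowDeg R V D) : (fun z => φ (f z)) ∈ lowDeg R' V D := by
  induction hf using Submodule.span_induction with
  | mem f hf =>
    obtain ⟨S, hS, rfl⟩ := hf
    have : (fun z => φ (mono R S z)) = mono R' S := by
      funext z
      by_cases h : S ⊆ z <;> simp [mono, h]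
    rw [this]
    exact mono_mem S hS
  | zero =>
    have : (fun z => φ ((0 : Finset V → R) z)) = 0 := by
      funext z; simp
    rw [this]
    exact Submodule.zero_mem _
  | add f g _ _ hf hg =>
    have : (fun z => φ ((f + g) z)) = (fun z => φ (f z)) + fun z => φ (g z) := by
      funext z; simp
    rw [this]
    exact Submodule.add_mem _ hf hg
  | smul c f _ hf =>
    have : (fun z => φ ((c • f) z)) = φ c • fun z => φ (f z) := by
      funext z; simp
    rw [this]
    exact Submodule.smul_mem _ _ hf

omit [Fintype V] in
/-- Lifting along a surjective ring homomorphism. -/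
lemma lift_mem_lowDeg {R' : Type*} [CommRing R'] (φ : R →+* R') (hφ : Function.Surjective φ)
    {D : ℕ} {f : Finset V → R'} (hf : f ∈ lowDeg R' V D) :
    ∃ g ∈ lowDeg R V D, ∀ z, φ (g z) = f z := by
  induction hf using Submodule.span_induction with
  | mem f hf =>
    obtain ⟨S, hS, rfl⟩ := hf
    refine ⟨mono R S, mono_mem S hS, fun z => ?_⟩
    by_cases h : S ⊆ z <;> simp [mono, h]
  | zero => exact ⟨0, Submodule.zero_mem _, fun z => by simp⟩
  | add f g _ _ hf hg =>
    obtain ⟨f', hf', h1⟩ := hf
    obtain ⟨g', hg', h2⟩ := hg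
    exact ⟨f' + g', Submodule.add_mem _ hf' hg', fun z => by simp [h1, h2]⟩
  | smul c f _ hf =>
    obtain ⟨f', hf', h1⟩ := hf
    obtain ⟨c', rfl⟩ := hφ c
    exact ⟨c' • f', Submodule.smul_mem _ _ hf', fun z => by simp [h1]⟩

end Pool.Agent.Helper32.QS
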