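import Pool.Agent.Helper32.QS.Deg

/-!
# No isolated fibre points: Boolean Chevalley-Warning for arbitrary moduli
-/

set_option autoImplicit false

namespace Pool.Agent.Helper32.QS

open Finset

variable {V : Type*} [Fintype V] [DecidableEq V]

/-- Boolean Chevalley-Warning. -/
lemma chevalley {ι : Type*} [Fintype ι] {p d : ℕ} [Fact p.Prime] {W : Type*} [Fintype W]
    [DecidableEq W] (f : ι → Finset W → ZMod p) (hf : ∀ i, f i ∈ lowDeg (ZMod p) W d)
    (hW : Fintype.card ι * ((p - 1) * d) < Fintype.card W) :
    ∃ J : Finset W, J.Nonempty ∧ ∀ i, f i J = f i ∅ := by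
  classical
  by_contra hcon
  push Not at hcon
  set g : Finset W → ZMod p := ∏ i : ι, ((1 : Finset W → ZMod p) -
    (f i - fun _ => f i ∅) ^ (p - 1)) with hg
  have hgd : g ∈ lowDeg (ZMod p) W (Fintype.card ι * ((p - 1) * d)) := by
    have h1 := prod_mem_lowDeg (R := ZMod p) (D := (p - 1) * d) (Finset.univ : Finset ι)
      (fun i => (1 : Finset W → ZMod p) - (f i - fun _ => f i ∅) ^ (p - 1)) (fun i _ => by
        refine Submodule.sub_mem _ (one_mem_lowDeg _) (pow_mem_lowDeg ?_ _)
        exact Submodule.sub_mem _ (hf i) (const_mem_lowDeg _ _))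
    simpa [hg] using h1
  have hsum := alt_sum_eq_zero hgd (Finset.univ : Finset W) (by simpa using hW)
  have hval : ∀ J : Finset W, g J = if J = ∅ then 1 else 0 := by
    intro J
    rw [hg, Finset.prod_apply]
    by_cases hJ : J = ∅
    · rw [if_pos hJ, hJ]
      refine Finset.prod_eq_one fun i _ => ?_
      have hp : p - 1 ≠ 0 := by
        have := (Fact.out : p.Prime).two_le; omega
      simp [hp]
    · rw [if_neg hJ]
      obtain ⟨i, hi⟩ := hcon J (Finset.nonempty_iff_ne_empty.mpr hJ)
      refine Finset.prod_eq_zero (Finset.mem_univ i) ?_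
      have h2 : f i J - f i ∅ ≠ 0 := sub_ne_zero.mpr hi
      simp [ZMod.pow_card_sub_one_eq_one h2]
  rw [Finset.sum_eq_single ∅] at hsum
  · rw [hval] at hsum
    simp at hsum
  · intro J _ hJ
    rw [hval, if_neg hJ, mul_zero]
  · intro h
    exact absurd (Finset.mem_powerset.mpr (Finset.empty_subset _)) h

/-- Chevalley-Warning inside a set `U` of coordinates, at a base point `A`. -/
lemma chevalley' {ι : Type*} [Fintype ι] {p d : ℕ} [Fact p.Prime]
    (f : ι → Finset V → ZMod p) (hf : ∀ i, f i ∈ lowDeg (ZMod p) V d) (A U : Finset V)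
    (hU : Fintype.card ι * ((p - 1) * d) < U.card) :
    ∃ B : Finset V, B ⊆ U ∧ B.Nonempty ∧ ∀ i, f i (symmDiff A B) = f i A := by
  classical
  let Bl : {x // x ∈ U} → Finset V := fun x => {x.1}
  have hdisj : ∀ i j, i ≠ j → Disjoint (Bl i) (Bl j) := by
    intro i j hij
    simp only [Bl, Finset.disjoint_singleton]
    exact fun h => hij (Subtype.ext h)
  obtain ⟨J, hJ, hJ2⟩ := chevalley (W := {x // x ∈ U}) (p := p) (d := d)
    (fun i J => f i (blk A Bl J)) (fun i => blk_mem_lowDeg A Bl hdisj (hf i)) (by simpa using hU)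
  refine ⟨J.biUnion Bl, ?_, ?_, fun i => ?_⟩
  · intro x hx
    rw [mem_biUnion] at hx
    obtain ⟨y, -, hy⟩ := hx
    simp only [Bl, mem_singleton] at hy
    rw [hy]; exact y.2
  · obtain ⟨y, hy⟩ := hJ
    exact ⟨y.1, mem_biUnion.mpr ⟨y, hy, by simp [Bl]⟩⟩
  · have := hJ2 i
    simp only [blk_empty] at this
    exact this

/-- The number of subsets of size at most `d` of a set with `n` elements is at most `(n + 1)^d`. -/
lemma card_small_subsets {W : Type*} [Fintype W] [DecidableEq W] (d : ℕ) :
    Fintype.card {J : Finset W // J.card ≤ d} ≤ (Fintype.card W + 1) ^ d := by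
  classical
  have h1 : Fintype.card (Fin d → Option W) = (Fintype.card W + 1) ^ d := by
    simp
  rw [← h1]
  refine Fintype.card_le_of_surjective
    (fun (u : Fin d → Option W) =>
      (⟨(Finset.univ.image u).eraseNone, by
        refine (Finset.card_eraseNone_le _).trans ?_
        refine Finset.card_image_le.trans ?_
        simp⟩ : {J : Finset W // J.card ≤ d})) ?_
  rintro ⟨J, hJ⟩
  obtain ⟨e, he⟩ : ∃ e : Fin d → Option W, ∀ w, w ∈ J ↔ some w ∈ Set.range e := by
    let l := J.toList
    refine ⟨fun i => if h : i.1 < l.length then some (l.get ⟨i.1, h⟩) else none, fun w => ?_⟩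
    constructor
    · intro hw
      rw [← Finset.mem_toList] at hw
      obtain ⟨n, hn⟩ := List.get_of_mem hw
      have hlt : n.1 < d := lt_of_lt_of_le n.2 (by simpa [l] using hJ)
      refine ⟨⟨n.1, hlt⟩, ?_⟩
      simp only
      rw [dif_pos n.2, hn]
    · rintro ⟨i, hi⟩
      simp only at hi
      by_cases h : i.1 < l.length
      · rw [dif_pos h] at hi
        rw [← Finset.mem_toList, ← Option.some_injective _ hi]
        exact List.get_mem _ _
      · rw [dif_neg h] at hi
        exact absurd hi (by simp)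
  refine ⟨e, ?_⟩
  simp only [Subtype.mk.injEq]
  ext w
  rw [Finset.mem_eraseNone, he w]
  simp

/-- Many blocks on which a system of polynomials is constant modulo `p`. -/
lemma blocks {ι : Type*} [Fintype ι] {p d : ℕ} [Fact p.Prime]
    (f : ι → Finset V → ZMod p) (hf : ∀ i, f i ∈ lowDeg (ZMod p) V d) (A : Finset V)
    (M : ℕ) (L : ℕ) (hL : Fintype.card ι * (M + 1) ^ d * ((p - 1) * d) < L) :
    ∀ (j : ℕ), j ≤ M → ∀ U : Finset V, j * L ≤ U.card →
    ∃ B : Fin j → Finset V, (∀ k, B k ⊆ U) ∧ (∀ k, (B k).Nonempty) ∧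
      (∀ k l, k ≠ l → Disjoint (B k) (B l)) ∧ ∀ i J, f i (blk A B J) = f i A := by
  classical
  intro j
  induction j with
  | zero =>
    intro _ U _
    refine ⟨fun k => k.elim0, fun k => k.elim0, fun k => k.elim0, fun k => k.elim0, ?_⟩
    intro i J
    have : J = ∅ := by
      ext k; exact k.elim0
    rw [this, blk_empty]
  | succ j ih =>
    intro hj U hU
    obtain ⟨U1, hU1, hU1c⟩ := Finset.exists_subset_card_eq (s := U) (n := j * L)
      (le_trans (Nat.mul_le_mul_right L (Nat.le_succ j)) hU)
    obtain ⟨B, hB1, hB2, hB3, hB4⟩ := ih (by omega) U1 hU1c.ge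
    have hU2 : L ≤ (U \ U1).card := by
      rw [Finset.card_sdiff_of_subset hU1, hU1c]
      have : (j + 1) * L = j * L + L := by ring
      omega
    -- the new block
    let g : ι × {J : Finset (Fin j) // J.card ≤ d} → Finset V → ZMod p :=
      fun q z => f q.1 (symmDiff (q.2.1.biUnion B) z)
    have hgd : ∀ q, g q ∈ lowDeg (ZMod p) V d := by
      intro q
      have h1 := blk_mem_lowDeg (R := ZMod p) (W := V) (q.2.1.biUnion B) (fun v : V => {v})
        (fun i j hij => by simpa using hij) (hf q.1)
      have h2 : g q = fun J => f q.1 (blk (q.2.1.biUnion B) (fun v : V => {v}) J) := by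
        funext z
        simp [g, blk]
      rw [h2]
      exact h1
    have hcard : Fintype.card (ι × {J : Finset (Fin j) // J.card ≤ d}) * ((p - 1) * d) < L := by
      refine lt_of_le_of_lt ?_ hL
      refine Nat.mul_le_mul_right _ ?_
      rw [Fintype.card_prod]
      refine Nat.mul_le_mul_left _ ?_
      refine (card_small_subsets d).trans ?_
      rw [Fintype.card_fin]
      exact Nat.pow_le_pow_left (by omega) d
    obtain ⟨C, hC1, hC2, hC3⟩ := chevalley' g hgd A (U \ U1) (lt_of_lt_of_le hcard hU2)
    have hCB : ∀ k, Disjoint (B k) C := by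
      intro k
      rw [Finset.disjoint_left]
      intro x hx hxC
      exact (mem_sdiff.mp (hC1 hxC)).2 (hB1 k hx)
    refine ⟨Fin.snoc B C, ?_, ?_, ?_, ?_⟩
    · intro k
      refine Fin.lastCases ?_ (fun k => ?_) k
      · rw [Fin.snoc_last]
        exact hC1.trans sdiff_subset
      · rw [Fin.snoc_castSucc]
        exact (hB1 k).trans hU1
    · intro k
      refine Fin.lastCases ?_ (fun k => ?_) k
      · rw [Fin.snoc_last]; exact hC2
      · rw [Fin.snoc_castSucc]; exact hB2 k
    · intro k l
      refine Fin.lastCases ?_ (fun k => ?_) k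
      · refine Fin.lastCases ?_ (fun l => ?_) l
        · intro h; exact absurd rfl h
        · intro _
          rw [Fin.snoc_last, Fin.snoc_castSucc]
          exact (hCB l).symm
      · refine Fin.lastCases ?_ (fun l => ?_) l
        · intro _
          rw [Fin.snoc_last, Fin.snoc_castSucc]
          exact hCB k
        · intro h
          rw [Fin.snoc_castSucc, Fin.snoc_castSucc]
          exact hB3 k l (fun h' => h (by rw [h']))
    · -- values on the new block cube
      intro i J
      set J' : Finset (Fin j) := Finset.univ.filter fun k => Fin.castSucc k ∈ J with hJ'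
      have hbi : ∀ T : Finset (Fin (j + 1)), T.biUnion (Fin.snoc (α := fun _ => Finset V) B C) =
          (Finset.univ.filter fun k => Fin.castSucc k ∈ T).biUnion B ∪
            (if Fin.last j ∈ T then C else ∅) := by
        intro T
        ext x
        simp only [mem_biUnion, mem_union, mem_filter, mem_univ, true_and]
        constructor
        · rintro ⟨k, hk, hx⟩
          revert hk hx
          refine Fin.lastCases ?_ (fun k => ?_) k
          · intro hk hx
            rw [Fin.snoc_last] at hx
            right; rw [if_pos hk]; exact hx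
          · intro hk hx
            rw [Fin.snoc_castSucc] at hx
            left; exact ⟨k, hk, hx⟩
        · rintro (⟨k, hk, hx⟩ | hx)
          · exact ⟨Fin.castSucc k, hk, by rw [Fin.snoc_castSucc]; exact hx⟩
          · by_cases hl : Fin.last j ∈ T
            · rw [if_pos hl] at hx
              exact ⟨Fin.last j, hl, by rw [Fin.snoc_last]; exact hx⟩
            · rw [if_neg hl] at hx
              exact absurd hx (by simp)
      by_cases hl : Fin.last j ∈ J
      · -- the function J ↦ f (A Δ A_J Δ C) - f A has low degree and vanishes on small sets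
        have hfd : (fun T : Finset (Fin j) => f i (blk (symmDiff A C) B T) - f i A) ∈
            lowDeg (ZMod p) (Fin j) d :=
          Submodule.sub_mem _ (blk_mem_lowDeg _ B hB3 (hf i)) (const_mem_lowDeg _ _)
        have hz := eq_zero_of_vanish hfd (fun T hT => by
          have h1 := hC3 (i, ⟨T, hT⟩)
          have h2 := hB4 i T
          simp only [g] at h1
          rw [sub_eq_zero]
          have h3 : blk (symmDiff A C) B T = symmDiff (T.biUnion B) (symmDiff A C) := by
            rw [blk, symmDiff_comm (symmDiff A C)]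
          rw [h3, h1]
          have h4 : symmDiff (T.biUnion B) A = blk A B T := by
            rw [blk, symmDiff_comm A]
          rw [h4, h2]) J'
        rw [sub_eq_zero] at hz
        rw [← hz]
        congr 1
        rw [blk, blk, hbi J, if_pos hl]
        have hdj : Disjoint (J'.biUnion B) C := by
          rw [Finset.disjoint_biUnion_left]
          intro k _; exact hCB k
        rw [← hJ']
        have h5 : J'.biUnion B ∪ C = symmDiff (J'.biUnion B) C := by
          have := hdj.symmDiff_eq_sup
          exact this.symm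
        rw [h5, symmDiff_assoc, symmDiff_comm (J'.biUnion B) C]
      · have h6 : blk A (Fin.snoc (α := fun _ => Finset V) B C) J = blk A B J' := by
          rw [blk, blk, hbi J, if_neg hl, union_empty]
        rw [h6, hB4]

/-- The size of a cube without isolated fibre points, as a function of the number `u` of prime
factors (with multiplicity) and of `K`. -/
def ZB (K d : ℕ) : ℕ → ℕ
  | 0 => 1
  | u + 1 => ZB K d u * (K * (ZB K d u + 1) ^ d + 1)

lemma ZB_pos (K d u : ℕ) : 0 < ZB K d u := by
  induction u with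
  | zero => exact Nat.one_pos
  | succ u ih => exact Nat.mul_pos ih (Nat.succ_pos _)

lemma ZB_mono_K {K K' : ℕ} (h : K ≤ K') (d u : ℕ) : ZB K d u ≤ ZB K' d u := by
  induction u with
  | zero => exact le_refl _
  | succ u ih =>
    simp only [ZB]
    gcongr

/-- Integer form: no isolated fibre points modulo a product of primes. -/
lemma no_isolated_list {d : ℕ} (K : ℕ) : ∀ (l : List ℕ), (∀ p ∈ l, p.Prime) →
    ∀ (V : Type) [Fintype V] [DecidableEq V] (t : ℕ) (f : Fin t → Finset V → ℤ),
    (∀ p ∈ l, t * ((p - 1) * d) ≤ K) →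
    (∀ i, f i ∈ lowDeg ℤ V d) → ∀ (A U : Finset V), ZB K d l.length ≤ U.card →
    ∃ B : Finset V, B ⊆ U ∧ B.Nonempty ∧
      ∀ i, ((l.prod : ℕ) : ℤ) ∣ f i (symmDiff A B) - f i A := by
  classical
  intro l
  induction l with
  | nil =>
    intro _ V _ _ t f _ _ A U hU
    simp only [List.length_nil, ZB] at hU
    obtain ⟨x, hx⟩ := Finset.card_pos.mp hU
    exact ⟨{x}, by simpa using hx, by simp, fun i => by simp⟩
  | cons p l ih =>
    intro hl V _ _ t f hK hf A U hU
    have hp : p.Prime := hl p (by simp)
    haveI : Fact p.Prime := ⟨hp⟩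
    simp only [List.length_cons, ZB] at hU
    set M := ZB K d l.length with hM
    obtain ⟨B, hB1, hB2, hB3, hB4⟩ := blocks (V := V) (p := p) (d := d)
      (fun (i : Fin t) z => ((f i z : ℤ) : ZMod p))
      (fun i => map_mem_lowDeg (Int.castRingHom (ZMod p)) (hf i)) A M
      (K * (M + 1) ^ d + 1) (by
        have h1 := hK p (by simp)
        rw [Fintype.card_fin]
        calc t * (M + 1) ^ d * ((p - 1) * d) = t * ((p - 1) * d) * (M + 1) ^ d := by ring
          _ ≤ K * (M + 1) ^ d := Nat.mul_le_mul_right _ h1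
          _ < K * (M + 1) ^ d + 1 := Nat.lt_succ_self _) M (le_refl M) U hU
    have hdvd : ∀ i J, ∃ c : ℤ, f i (blk A B J) - f i A = p * c := by
      intro i J
      have h1 := hB4 i J
      have h2 : ((f i (blk A B J) - f i A : ℤ) : ZMod p) = 0 := by
        push_cast; rw [h1, sub_self]
      exact (ZMod.intCast_zmod_eq_zero_iff_dvd _ _).mp h2
    choose g hg using hdvd
    have hgd : ∀ i, g i ∈ lowDeg ℤ (Fin M) d := by
      intro i
      refine div_mem_lowDeg (p := (p : ℤ)) (by exact_mod_cast hp.ne_zero)
        (f := fun J => f i (blk A B J) - f i A) ?_ (hg i)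
      exact Submodule.sub_mem _ (blk_mem_lowDeg A B hB3 (hf i)) (const_mem_lowDeg _ _)
    obtain ⟨J, -, hJ2, hJ3⟩ := ih (fun q hq => hl q (by simp [hq])) (Fin M) t g
      (fun q hq => hK q (by simp [hq])) hgd ∅ Finset.univ (by simp [hM])
    refine ⟨J.biUnion B, ?_, ?_, fun i => ?_⟩
    · rw [Finset.biUnion_subset]; intro k _; exact hB1 k
    · obtain ⟨k, hk⟩ := hJ2
      obtain ⟨x, hx⟩ := hB2 k
      exact ⟨x, mem_biUnion.mpr ⟨k, hk, hx⟩⟩
    · have h3 := hJ3 i
      have h4 : symmDiff (∅ : Finset (Fin M)) J = J := by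
        have := bot_symmDiff J
        simpa using this
      rw [h4] at h3
      have h5 : g i ∅ = 0 := by
        have := hg i ∅
        rw [blk_empty, sub_self] at this
        have hp0 : (p : ℤ) ≠ 0 := by exact_mod_cast hp.ne_zero
        exact (mul_eq_zero.mp this.symm).resolve_left hp0
      rw [h5, sub_zero] at h3
      have h6 := hg i J
      have h7 : blk A B J = symmDiff A (J.biUnion B) := rfl
      rw [← h7, h6, List.prod_cons, Nat.cast_mul]
      exact mul_dvd_mul_left _ h3

/-- No isolated fibre points of systems of functions of low degree modulo any `m`: block form. -/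
theorem exists_block_eq {m d w : ℕ} (hm : m ≠ 0) {D : ℕ}
    (f : Fin w → Finset (Fin D) → ZMod m) (hf : ∀ i, f i ∈ lowDeg (ZMod m) (Fin D) d)
    (hD : ZB (w * (m * d)) d m.primeFactorsList.length ≤ D) :
    ∃ K : Finset (Fin D), K.Nonempty ∧ ∀ i, f i K = f i ∅ := by
  choose g hg hgf using fun i => lift_mem_lowDeg (Int.castRingHom (ZMod m))
    (ZMod.intCast_surjective) (hf i)
  obtain ⟨B, -, hB, hB2⟩ := no_isolated_list (d := d) (w * (m * d)) m.primeFactorsList
    (fun p hp => Nat.prime_of_mem_primeFactorsList hp) (Fin D) w g (fun p hp => by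
      have h1 : p ≤ m := Nat.le_of_dvd (Nat.pos_of_ne_zero hm)
        (Nat.dvd_of_mem_primeFactorsList hp)
      refine Nat.mul_le_mul_left _ (Nat.mul_le_mul_right _ ?_)
      omega) hg ∅ Finset.univ (by simpa using hD)
  refine ⟨B, hB, fun i => ?_⟩
  have h1 := hB2 i
  have h2 : symmDiff (∅ : Finset (Fin D)) B = B := by
    have := bot_symmDiff B
    simpa using this
  rw [Nat.prod_primeFactorsList hm, h2] at h1
  have h3 := (ZMod.intCast_zmod_eq_zero_iff_dvd _ _).mpr h1
  push_cast at h3
  have h4 := hgf i B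
  have h5 := hgf i ∅
  simp only [eq_intCast] at h4 h5
  rw [h4, h5, sub_eq_zero] at h3
  exact h3

section Bool

variable {ι : Type*} [Fintype ι] [DecidableEq ι]

/-- Flip the coordinates in `B`. -/
def flip (x : ι → Bool) (B : Finset ι) : ι → Bool := fun i => xor (x i) (decide (i ∈ B))

/-- The function `f` on the Boolean cube has degree at most `d`. -/
def LD (m d : ℕ) (f : (ι → Bool) → ZMod m) : Prop :=
  (fun z : Finset ι => f (fun i => decide (i ∈ z))) ∈ lowDeg (ZMod m) ι d

omit [Fintype ι] in
@[simp] lemma flip_empty (x : ι → Bool) : flip x ∅ = x := by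
  funext i; simp [flip]

omit [Fintype ι] in
lemma flip_apply_of_notMem (x : ι → Bool) {B : Finset ι} {i : ι} (h : i ∉ B) :
    flip x B i = x i := by
  simp [flip, h]

omit [Fintype ι] in
lemma flip_apply_of_mem (x : ι → Bool) {B : Finset ι} {i : ι} (h : i ∈ B) :
    flip x B i = !(x i) := by
  simp [flip, h]

/-- On a block cube of dimension `D` a system of `w` functions of degree `d` takes its value at
the base point at another point. -/
theorem exists_flip_eq {m d w : ℕ} (hm : m ≠ 0) {D : ℕ} (f : Fin w → (ι → Bool) → ZMod m)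
    (hf : ∀ i, LD m d (f i)) (hD : ZB (w * (m * d)) d m.primeFactorsList.length ≤ D)
    (x : ι → Bool) (B : Fin D → Finset ι) (hB : ∀ i j, i ≠ j → Disjoint (B i) (B j)) :
    ∃ K : Finset (Fin D), K.Nonempty ∧ ∀ i, f i (flip x (K.biUnion B)) = f i x := by
  classical
  set A : Finset ι := Finset.univ.filter fun i => x i = true with hA
  have hfl : ∀ K : Finset (Fin D), (fun i => decide (i ∈ blk A B K)) =
      flip x (K.biUnion B) := by
    intro K
    funext i
    by_cases h1 : x i = true <;> by_cases h2 : i ∈ K.biUnion B <;>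
      simp [blk, flip, mem_symmDiff, hA, h1, h2]
  obtain ⟨K, hK, hK2⟩ := exists_block_eq (d := d) hm
    (fun i K => f i (flip x (K.biUnion B))) (fun i => by
      have h1 := blk_mem_lowDeg A B hB (hf i)
      simp only [hfl] at h1
      exact h1) hD
  refine ⟨K, hK, fun i => ?_⟩
  have := hK2 i
  simpa using this

/-- Explicit bound. -/
lemma ZB_le (K d : ℕ) (u : ℕ) : ZB K d u ≤ ((K + 1) * 2 ^ d) ^ (d + 2) ^ u := by
  set c := (K + 1) * 2 ^ d with hc
  have hc1 : 1 ≤ c := Nat.mul_pos (Nat.succ_pos _) (pow_pos (by norm_num) _)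
  induction u with
  | zero => simpa [ZB] using hc1
  | succ u ih =>
    simp only [ZB]
    set Z := ZB K d u with hZ
    have hZ1 : 1 ≤ Z := ZB_pos K d u
    have h1 : K * (Z + 1) ^ d + 1 ≤ c * Z ^ d := by
      have h2 : 1 ≤ (Z + 1) ^ d := Nat.one_le_pow _ _ (Nat.succ_pos _)
      calc K * (Z + 1) ^ d + 1 ≤ K * (Z + 1) ^ d + (Z + 1) ^ d := Nat.add_le_add_left h2 _
        _ = (K + 1) * (Z + 1) ^ d := by ring
        _ ≤ (K + 1) * (2 * Z) ^ d := by
            refine Nat.mul_le_mul_left _ (Nat.pow_le_pow_left ?_ d)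
            omega
        _ = c * Z ^ d := by rw [hc, mul_pow]; ring
    calc Z * (K * (Z + 1) ^ d + 1) ≤ Z * (c * Z ^ d) := Nat.mul_le_mul_left _ h1
      _ = c * Z ^ (d + 1) := by ring
      _ ≤ c * (c ^ (d + 2) ^ u) ^ (d + 1) :=
          Nat.mul_le_mul_left _ (Nat.pow_le_pow_left ih _)
      _ = c ^ (1 + (d + 2) ^ u * (d + 1)) := by rw [← pow_mul, pow_add, pow_one]
      _ ≤ c ^ (d + 2) ^ (u + 1) := by
          refine Nat.pow_le_pow_right hc1 ?_
          have h3 : 1 ≤ (d + 2) ^ u := Nat.one_le_pow _ _ (Nat.succ_pos _)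
          calc 1 + (d + 2) ^ u * (d + 1) ≤ (d + 2) ^ u + (d + 2) ^ u * (d + 1) :=
                Nat.add_le_add_right h3 _
            _ = (d + 2) ^ (u + 1) := by ring

end Bool

end Pool.Agent.Helper32.QS
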